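import Mathlib

set_option autoImplicit false

namespace PolyC

open Polynomial Finset

/-- bound for a resultant -/
lemma abs_resultant_le (f g : ℤ[X]) {G B : ℕ} (hfG : f.natDegree ≤ G) (hgG : g.natDegree ≤ G)
    (hfB : ∀ i, |f.coeff i| ≤ B) (hgB : ∀ i, |g.coeff i| ≤ B) (hB : 1 ≤ B) :
    |resultant f g| ≤ ((2 * G).factorial * B ^ (2 * G) : ℤ) := by
  have h1 : ∀ i j, |sylvester f g f.natDegree g.natDegree i j| ≤ (B : ℤ) := by
    intro i j
    unfold sylvester
    induction j using Fin.addCases with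
    | left j₁ =>
      rw [Matrix.of_apply, Fin.addCases_left]
      split_ifs
      · exact hgB _
      · simp
    | right j₁ =>
      rw [Matrix.of_apply, Fin.addCases_right]
      split_ifs
      · exact hfB _
      · simp
  have h2 := Matrix.det_le (abv := AbsoluteValue.abs) (x := (B : ℤ))
    (A := sylvester f g f.natDegree g.natDegree) (fun i j => h1 i j)
  rw [AbsoluteValue.abs_apply, Fintype.card_fin, nsmul_eq_mul] at h2
  have h3 : resultant f g = (sylvester f g f.natDegree g.natDegree).det := rfl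
  rw [h3]
  refine h2.trans ?_
  have h4 : f.natDegree + g.natDegree ≤ 2 * G := by omega
  have h5 : ((f.natDegree + g.natDegree).factorial : ℤ) ≤ ((2 * G).factorial : ℤ) := by
    exact_mod_cast Nat.factorial_le h4
  have h6 : (B : ℤ) ^ (f.natDegree + g.natDegree) ≤ (B : ℤ) ^ (2 * G) :=
    pow_le_pow_right₀ (by exact_mod_cast hB) h4
  exact mul_le_mul h5 h6 (by positivity) (by positivity)

/-- certificate of coprimality modulo `p` -/
lemma cert (f g : ℤ[X]) {G B : ℕ} (hf1 : 1 ≤ f.natDegree) (hfG : f.natDegree ≤ G)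
    (hgG : g.natDegree ≤ G)
    (hfB : ∀ i, |f.coeff i| ≤ B) (hgB : ∀ i, |g.coeff i| ≤ B) (hB : 1 ≤ B)
    (hcop : IsCoprime (f.map (Int.castRingHom ℚ)) (g.map (Int.castRingHom ℚ))) :
    ∃ R : ℤ, R ≠ 0 ∧ |R| ≤ ((2 * G).factorial * B ^ (2 * G) : ℤ) ∧
      ∀ p : ℕ, p.Prime → ¬ (p : ℤ) ∣ R →
        IsCoprime (f.map (Int.castRingHom (ZMod p))) (g.map (Int.castRingHom (ZMod p))) := by
  have hinj : Function.Injective (Int.castRingHom ℚ) := Int.cast_injective
  refine ⟨resultant f g, ?_, abs_resultant_le f g hfG hgG hfB hgB hB, ?_⟩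
  · intro h
    have h1 : resultant (f.map (Int.castRingHom ℚ)) (g.map (Int.castRingHom ℚ)) = 0 := by
      rw [natDegree_map_eq_of_injective hinj, natDegree_map_eq_of_injective hinj,
        resultant_map_map, h, map_zero]
    rw [resultant_eq_zero_iff] at h1
    exact h1.2 hcop
  · intro p hp hpR
    haveI : Fact p.Prime := ⟨hp⟩
    obtain ⟨u, v, _, _, h⟩ := exists_mul_add_mul_eq_C_resultant f g le_rfl le_rfl
      (Or.inl (by omega : f.natDegree ≠ 0))
    have h1 := congrArg (Polynomial.map (Int.castRingHom (ZMod p))) h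
    rw [Polynomial.map_add, Polynomial.map_mul, Polynomial.map_mul, Polynomial.map_C] at h1
    set r : ZMod p := Int.castRingHom (ZMod p) (resultant f g) with hr
    have hr0 : r ≠ 0 := by
      rw [hr]
      intro h0
      apply hpR
      rw [← ZMod.intCast_zmod_eq_zero_iff_dvd]
      exact h0
    refine ⟨C r⁻¹ * u.map (Int.castRingHom (ZMod p)), C r⁻¹ * v.map (Int.castRingHom (ZMod p)), ?_⟩
    calc C r⁻¹ * u.map (Int.castRingHom (ZMod p)) * f.map (Int.castRingHom (ZMod p))
          + C r⁻¹ * v.map (Int.castRingHom (ZMod p)) * g.map (Int.castRingHom (ZMod p))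
        = C r⁻¹ * (f.map (Int.castRingHom (ZMod p)) * u.map (Int.castRingHom (ZMod p))
          + g.map (Int.castRingHom (ZMod p)) * v.map (Int.castRingHom (ZMod p))) := by ring
      _ = C r⁻¹ * C r := by rw [h1]
      _ = 1 := by rw [← C_mul, inv_mul_cancel₀ hr0, C_1]

/-- certificate of squarefreeness modulo `p` -/
lemma cert_sqf (f : ℤ[X]) {G B : ℕ} (hf1 : 1 ≤ f.natDegree) (hfG : f.natDegree ≤ G)
    (hfB : ∀ i, |f.coeff i| ≤ B) (hB : 1 ≤ B)
    (hsq : Squarefree (f.map (Int.castRingHom ℚ))) :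
    ∃ R : ℤ, R ≠ 0 ∧ |R| ≤ ((2 * G).factorial * (G * B) ^ (2 * G) * B : ℤ) ∧
      ∀ p : ℕ, p.Prime → ¬ (p : ℤ) ∣ R →
        Squarefree (f.map (Int.castRingHom (ZMod p))) ∧
          1 ≤ (f.map (Int.castRingHom (ZMod p))).natDegree := by
  have hG1 : 1 ≤ G := hf1.trans hfG
  have hf0 : f ≠ 0 := by rintro rfl; simp at hf1
  have hdB : ∀ i, |(derivative f).coeff i| ≤ ((G * B : ℕ) : ℤ) := by
    intro i
    rw [coeff_derivative, abs_mul]
    by_cases hi : i + 1 ≤ f.natDegree
    · have h1 := hfB (i + 1)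
      have h2 : |((i : ℤ) + 1)| ≤ G := by
        rw [abs_of_nonneg (by positivity)]
        have : i + 1 ≤ G := hi.trans hfG
        exact_mod_cast this
      push_cast
      calc |f.coeff (i + 1)| * |((i : ℤ) + 1)| ≤ (B : ℤ) * G :=
            mul_le_mul h1 h2 (abs_nonneg _) (by positivity)
        _ = G * B := mul_comm _ _
    · rw [coeff_eq_zero_of_natDegree_lt (by omega)]
      simp only [abs_zero, zero_mul]
      positivity
  have hfB' : ∀ i, |f.coeff i| ≤ ((G * B : ℕ) : ℤ) := by
    intro i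
    refine (hfB i).trans ?_
    have : B ≤ G * B := Nat.le_mul_of_pos_left B hG1
    exact_mod_cast this
  have hsep : IsCoprime (f.map (Int.castRingHom ℚ)) ((derivative f).map (Int.castRingHom ℚ)) := by
    rw [← derivative_map]
    exact PerfectField.separable_iff_squarefree.2 hsq
  obtain ⟨R, hR0, hRle, hR⟩ := cert f (derivative f) hf1 hfG
    ((natDegree_derivative_le f).trans ((Nat.sub_le _ _).trans hfG)) hfB' hdB
    (Nat.mul_pos hG1 hB) hsep
  have hlc : f.leadingCoeff ≠ 0 := leadingCoeff_ne_zero.2 hf0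
  refine ⟨R * f.leadingCoeff, mul_ne_zero hR0 hlc, ?_, ?_⟩
  · rw [abs_mul]
    push_cast at hRle
    exact mul_le_mul hRle (hfB _) (abs_nonneg _) (by positivity)
  · intro p hp hpR
    haveI : Fact p.Prime := ⟨hp⟩
    have h1 : ¬ (p : ℤ) ∣ R := fun h => hpR (h.mul_right _)
    have h2 : ¬ (p : ℤ) ∣ f.leadingCoeff := fun h => hpR (h.mul_left _)
    constructor
    · have h3 := hR p hp h1
      rw [← derivative_map] at h3
      exact Separable.squarefree h3
    · have h3 : (Int.castRingHom (ZMod p)) f.leadingCoeff ≠ 0 := by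
        intro h
        apply h2
        rw [← ZMod.intCast_zmod_eq_zero_iff_dvd]
        exact h
      rw [natDegree_map_of_leadingCoeff_ne_zero _ h3]
      exact hf1

end PolyC
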