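import Pool.Agent.W_aaa0df_h53.Mom2
import Pool.Agent.W_aaa0df_pc.PolA

set_option autoImplicit false

namespace PolyC

open Polynomial Finset StepH53

variable {p : ℕ} [hpF : Fact p.Prime]

/-- complete sums over products of coprime squarefree polynomials -/
lemma sum_prod_le (hp2 : p ≠ 2) {m G : ℕ} (f : Fin m → (ZMod p)[X])
    (hsq : ∀ i, Squarefree (f i)) (hd1 : ∀ i, 1 ≤ (f i).natDegree) (hdG : ∀ i, (f i).natDegree ≤ G)
    (hcop : ∀ i j, i ≠ j → IsCoprime (f i) (f j)) (T : Finset (Fin m)) (hT : T.Nonempty) :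
    |((∑ x : ZMod p, ∏ i ∈ T, quadraticChar (ZMod p) ((f i).eval x) : ℤ) : ℝ)|
      ≤ 23 * (G * T.card : ℝ) * Real.sqrt p := by
  classical
  set F : (ZMod p)[X] := ∏ i ∈ T, f i with hF
  have hne : ∀ i ∈ T, f i ≠ 0 := fun i _ => (hsq i).ne_zero
  have hsqF : Squarefree F := by
    apply Finset.squarefree_prod_of_pairwise_isCoprime
    · intro i _ j _ hij
      exact (hcop i j hij).isRelPrime
    · intro i _
      exact hsq i
  have hdeg : F.natDegree = ∑ i ∈ T, (f i).natDegree := natDegree_prod _ _ hne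
  have hdeg1 : F.natDegree ≤ G * T.card := by
    rw [hdeg]
    calc ∑ i ∈ T, (f i).natDegree ≤ ∑ _i ∈ T, G := Finset.sum_le_sum (fun i _ => hdG i)
      _ = G * T.card := by rw [Finset.sum_const, smul_eq_mul, mul_comm]
  have hdeg2 : 1 ≤ F.natDegree := by
    obtain ⟨i, hi⟩ := hT
    rw [hdeg]
    exact (hd1 i).trans (Finset.single_le_sum (f := fun i => (f i).natDegree)
      (fun _ _ => Nat.zero_le _) hi)
  have hsum : ∑ x : ZMod p, ∏ i ∈ T, quadraticChar (ZMod p) ((f i).eval x)
      = ∑ x : ZMod p, quadraticChar (ZMod p) (F.eval x) := by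
    apply Finset.sum_congr rfl
    intro x _
    rw [hF, eval_prod, map_prod]
  rw [hsum]
  refine (stepanov_real hp2 F hsqF hdeg2).trans ?_
  have h1 : (F.natDegree : ℝ) ≤ G * T.card := by exact_mod_cast hdeg1
  have h2 : (0 : ℝ) ≤ Real.sqrt p := Real.sqrt_nonneg _
  nlinarith [mul_le_mul_of_nonneg_right h1 h2]

/-- sum over `x` of the product attached to a tuple -/
lemma sum_tuple_le (hp2 : p ≠ 2) {m K G : ℕ} (hK : 1 ≤ K) (hG : 1 ≤ G) (f : Fin m → (ZMod p)[X])
    (hsq : ∀ i, Squarefree (f i)) (hd1 : ∀ i, 1 ≤ (f i).natDegree) (hdG : ∀ i, (f i).natDegree ≤ G)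
    (hcop : ∀ i j, i ≠ j → IsCoprime (f i) (f j)) (ε : Fin m → ℤ) (hε : ∀ i, |ε i| ≤ 1)
    (j : Fin (2 * K) → Fin m) (hj : j ∉ evenTuples (2 * K) m) :
    |((∑ x : ZMod p, ∏ s, (ε (j s) * quadraticChar (ZMod p) ((f (j s)).eval x)) : ℤ) : ℝ)|
      ≤ 48 * (G * K : ℝ) * Real.sqrt p := by
  classical
  set mult : Fin m → ℕ := fun i => (univ.filter (fun s : Fin (2 * K) => j s = i)).card with hmult
  set T : Finset (Fin m) := univ.filter (fun i => ¬ Even (mult i)) with hT
  have hprod : ∀ w : Fin m → ℤ, ∏ s, w (j s) = ∏ i, w i ^ mult i := by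
    intro w
    rw [← Finset.prod_fiberwise (s := (univ : Finset (Fin (2 * K)))) (g := j)]
    apply Finset.prod_congr rfl
    intro i _
    rw [Finset.prod_congr rfl (g := fun _ => w i), Finset.prod_const]
    intro s hs
    rw [(Finset.mem_filter.1 hs).2]
  have hsumm : ∑ i, mult i = 2 * K := by
    have h1 := Finset.card_eq_sum_card_fiberwise (s := (univ : Finset (Fin (2 * K))))
      (t := (univ : Finset (Fin m))) (f := j) (fun _ _ => Finset.mem_coe.2 (Finset.mem_univ _))
    rw [Finset.card_univ, Fintype.card_fin] at h1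
    exact h1.symm
  have hTne : T.Nonempty := by
    rw [evenTuples, Finset.mem_filter] at hj
    push Not at hj
    obtain ⟨i, hi⟩ := hj (Finset.mem_univ _)
    exact ⟨i, Finset.mem_filter.2 ⟨Finset.mem_univ _, hi⟩⟩
  have hTle : T.card ≤ 2 * K := by
    rw [← hsumm]
    calc T.card = ∑ _i ∈ T, 1 := by simp
      _ ≤ ∑ i ∈ T, mult i := by
          apply Finset.sum_le_sum
          intro i hi
          have := (Finset.mem_filter.1 hi).2
          by_contra h
          apply this
          have : mult i = 0 := by omega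
          rw [this]; exact ⟨0, rfl⟩
      _ ≤ ∑ i, mult i := Finset.sum_le_sum_of_subset (Finset.subset_univ _)
  set c : ℤ := ∏ i, ε i ^ mult i with hc
  have hc1 : |c| ≤ 1 := by
    rw [hc, Finset.abs_prod]
    apply Finset.prod_le_one
    · intro i _; exact abs_nonneg _
    · intro i _
      rw [abs_pow]
      exact pow_le_one₀ (abs_nonneg _) (hε i)
  -- the exceptional points
  set Z : Finset (ZMod p) := univ.filter (fun x => ∃ s, (f (j s)).eval x = 0) with hZ
  have hZcard : Z.card ≤ 2 * K * G := by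
    have h1 : Z ⊆ univ.biUnion (fun s : Fin (2 * K) =>
        univ.filter (fun x : ZMod p => (f (j s)).eval x = 0)) := by
      intro x hx
      obtain ⟨s, hs⟩ := (Finset.mem_filter.1 hx).2
      exact Finset.mem_biUnion.2 ⟨s, Finset.mem_univ _, Finset.mem_filter.2 ⟨Finset.mem_univ _, hs⟩⟩
    calc Z.card ≤ _ := Finset.card_le_card h1
      _ ≤ ∑ s : Fin (2 * K), (univ.filter (fun x : ZMod p => (f (j s)).eval x = 0)).card :=
          Finset.card_biUnion_le
      _ ≤ ∑ _s : Fin (2 * K), G := by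
          apply Finset.sum_le_sum
          intro s _
          have h2 : univ.filter (fun x : ZMod p => (f (j s)).eval x = 0)
              ⊆ (f (j s)).roots.toFinset := by
            intro x hx
            rw [Multiset.mem_toFinset, mem_roots (hsq _).ne_zero]
            exact (Finset.mem_filter.1 hx).2
          calc (univ.filter (fun x : ZMod p => (f (j s)).eval x = 0)).card
              ≤ (f (j s)).roots.toFinset.card := Finset.card_le_card h2
            _ ≤ Multiset.card (f (j s)).roots := Multiset.toFinset_card_le _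
            _ ≤ (f (j s)).natDegree := card_roots' _
            _ ≤ G := hdG _
      _ = 2 * K * G := by simp
  set g : ZMod p → ℤ := fun x => ∏ i ∈ T, quadraticChar (ZMod p) ((f i).eval x) with hg
  set F : ZMod p → ℤ :=
    fun x => ∏ s, (ε (j s) * quadraticChar (ZMod p) ((f (j s)).eval x)) with hF
  have hpt : ∀ x, |F x - c * g x| ≤ if x ∈ Z then 1 else 0 := by
    intro x
    by_cases hx : x ∈ Z
    · rw [if_pos hx]
      obtain ⟨s, hs⟩ := (Finset.mem_filter.1 hx).2
      have h1 : F x = 0 := by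
        rw [hF]
        apply Finset.prod_eq_zero (Finset.mem_univ s)
        rw [hs, quadraticChar_zero, mul_zero]
      rw [h1, zero_sub, abs_neg, abs_mul]
      have h2 : |g x| ≤ 1 := by
        rw [hg, Finset.abs_prod]
        exact Finset.prod_le_one (fun i _ => abs_nonneg _) (fun i _ => abs_quadChar_le _)
      calc |c| * |g x| ≤ 1 * 1 := mul_le_mul hc1 h2 (abs_nonneg _) (by norm_num)
        _ = 1 := by norm_num
    · rw [if_neg hx]
      have hne : ∀ i, mult i ≠ 0 → (f i).eval x ≠ 0 := by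
        intro i hi h
        apply hx
        have h1 : (univ.filter (fun s : Fin (2 * K) => j s = i)).Nonempty :=
          Finset.card_pos.1 (Nat.pos_of_ne_zero hi)
        obtain ⟨s, hs⟩ := h1
        have hs' := (Finset.mem_filter.1 hs).2
        exact Finset.mem_filter.2 ⟨Finset.mem_univ _, s, by rw [hs']; exact h⟩
      have h1 : F x = c * g x := by
        rw [hF]
        simp only
        rw [hprod (fun i => ε i * quadraticChar (ZMod p) ((f i).eval x))]
        have h2 : ∀ i, (ε i * quadraticChar (ZMod p) ((f i).eval x)) ^ mult i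
            = ε i ^ mult i * (if i ∈ T then quadraticChar (ZMod p) ((f i).eval x) else 1) := by
          intro i
          rw [mul_pow]
          congr 1
          by_cases h0 : mult i = 0
          · have hiT : i ∉ T := by
              intro h
              apply (Finset.mem_filter.1 h).2
              rw [h0]; exact ⟨0, rfl⟩
            rw [if_neg hiT, h0, pow_zero]
          · have hsq : quadraticChar (ZMod p) ((f i).eval x) ^ 2 = 1 := quadraticChar_sq_one (hne i h0)
            by_cases hiT : i ∈ T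
            · rw [if_pos hiT]
              have hodd := (Finset.mem_filter.1 hiT).2
              obtain ⟨r, hr⟩ := Nat.not_even_iff_odd.1 hodd
              rw [hr, pow_add, pow_mul, hsq, one_pow, one_mul, pow_one]
            · rw [if_neg hiT]
              have heven : Even (mult i) := by
                by_contra h
                exact hiT (Finset.mem_filter.2 ⟨Finset.mem_univ _, h⟩)
              obtain ⟨r, hr⟩ := heven
              rw [hr, ← two_mul, pow_mul, hsq, one_pow]
        rw [Finset.prod_congr rfl (fun i _ => h2 i), Finset.prod_mul_distrib, Finset.prod_ite_mem,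
          Finset.univ_inter]
      rw [h1, sub_self, abs_zero]
  have hmain : |∑ x, F x - c * ∑ x, g x| ≤ 2 * (K : ℤ) * G := by
    rw [Finset.mul_sum, ← Finset.sum_sub_distrib]
    calc |∑ x, (F x - c * g x)| ≤ ∑ x, |F x - c * g x| := Finset.abs_sum_le_sum_abs _ _
      _ ≤ ∑ x, (if x ∈ Z then 1 else 0) := Finset.sum_le_sum (fun x _ => hpt x)
      _ = (Z.card : ℤ) := by simp
      _ ≤ 2 * (K : ℤ) * G := by exact_mod_cast hZcard
  have hg1 := sum_prod_le hp2 f hsq hd1 hdG hcop T hTne
  have hmain' : |((∑ x, F x : ℤ) : ℝ) - (c : ℝ) * ((∑ x, g x : ℤ) : ℝ)| ≤ 2 * (K : ℝ) * G := by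
    exact_mod_cast hmain
  have hc1' : |(c : ℝ)| ≤ 1 := by exact_mod_cast hc1
  have hs1 : (1 : ℝ) ≤ Real.sqrt p := by
    rw [Real.one_le_sqrt]; exact_mod_cast hpF.out.one_le
  have hK0 : (1 : ℝ) ≤ K := by exact_mod_cast hK
  have hG0 : (1 : ℝ) ≤ G := by exact_mod_cast hG
  have hTle' : (T.card : ℝ) ≤ 2 * K := by exact_mod_cast hTle
  calc |((∑ x, F x : ℤ) : ℝ)|
      = |(((∑ x, F x : ℤ) : ℝ) - (c : ℝ) * ((∑ x, g x : ℤ) : ℝ)) + c * ((∑ x, g x : ℤ) : ℝ)| := by
        congr 1; ring
    _ ≤ |((∑ x, F x : ℤ) : ℝ) - (c : ℝ) * ((∑ x, g x : ℤ) : ℝ)| + |c * ((∑ x, g x : ℤ) : ℝ)| :=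
        abs_add_le _ _
    _ ≤ 2 * K * G + 1 * (23 * (G * T.card : ℝ) * Real.sqrt p) := by
        rw [abs_mul]
        apply add_le_add hmain'
        exact mul_le_mul hc1' hg1 (abs_nonneg _) (by norm_num)
    _ ≤ 48 * (G * K : ℝ) * Real.sqrt p := by
        have h1 : (G * T.card : ℝ) * Real.sqrt p ≤ (G * (2 * K)) * Real.sqrt p := by
          apply mul_le_mul_of_nonneg_right _ (by linarith)
          exact mul_le_mul_of_nonneg_left hTle' (by linarith)
        have h2 : 0 < (G : ℝ) * K := by positivity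
        have h3 : (G * K : ℝ) ≤ (G * K : ℝ) * Real.sqrt p := by nlinarith
        nlinarith

/-- the high moment of a sum of quadratic characters of polynomials -/
lemma moment_le (hp2 : p ≠ 2) {m K G : ℕ} (hK : 1 ≤ K) (hG : 1 ≤ G) (f : Fin m → (ZMod p)[X])
    (hsq : ∀ i, Squarefree (f i)) (hd1 : ∀ i, 1 ≤ (f i).natDegree) (hdG : ∀ i, (f i).natDegree ≤ G)
    (hcop : ∀ i j, i ≠ j → IsCoprime (f i) (f j)) (ε : Fin m → ℤ) (hε : ∀ i, |ε i| ≤ 1) :
    ∑ x : ZMod p, (((∑ i, ε i * quadraticChar (ZMod p) ((f i).eval x) : ℤ) : ℝ)) ^ (2 * K)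
      ≤ ((evenTuples (2 * K) m).card : ℝ) * p
        + (m : ℝ) ^ (2 * K) * (48 * (G * K) * Real.sqrt p) := by
  classical
  have h1 : ∀ x : ZMod p,
      (((∑ i, ε i * quadraticChar (ZMod p) ((f i).eval x) : ℤ) : ℝ)) ^ (2 * K)
      = ∑ j : Fin (2 * K) → Fin m,
        ((∏ s, (ε (j s) * quadraticChar (ZMod p) ((f (j s)).eval x)) : ℤ) : ℝ) := by
    intro x
    have := Finset.prod_univ_sum (fun _ : Fin (2 * K) => (univ : Finset (Fin m)))
      (fun _ i => ε i * quadraticChar (ZMod p) ((f i).eval x))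
    rw [Finset.prod_const, Finset.card_univ, Fintype.card_fin, Fintype.piFinset_univ] at this
    exact_mod_cast this
  rw [Finset.sum_congr rfl (fun x _ => h1 x), Finset.sum_comm]
  have h2 : ∀ j : Fin (2 * K) → Fin m,
      ∑ x : ZMod p, ((∏ s, (ε (j s) * quadraticChar (ZMod p) ((f (j s)).eval x)) : ℤ) : ℝ)
        ≤ (if j ∈ evenTuples (2 * K) m then (p : ℝ) else 0) + 48 * (G * K) * Real.sqrt p := by
    intro j
    by_cases hj : j ∈ evenTuples (2 * K) m
    · rw [if_pos hj]
      have h3 : ∑ x : ZMod p,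
          ((∏ s, (ε (j s) * quadraticChar (ZMod p) ((f (j s)).eval x)) : ℤ) : ℝ)
          ≤ ∑ _x : ZMod p, (1 : ℝ) := by
        apply Finset.sum_le_sum
        intro x _
        have h4 : |∏ s, (ε (j s) * quadraticChar (ZMod p) ((f (j s)).eval x))| ≤ 1 := by
          rw [Finset.abs_prod]
          apply Finset.prod_le_one (fun _ _ => abs_nonneg _)
          intro s _
          rw [abs_mul]
          exact mul_le_one₀ (hε _) (abs_nonneg _) (abs_quadChar_le _)
        have h5 := (le_abs_self _).trans h4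
        exact_mod_cast h5
      rw [Finset.sum_const, Finset.card_univ, ZMod.card, nsmul_eq_mul, mul_one] at h3
      have h6 : (0 : ℝ) ≤ 48 * (G * K) * Real.sqrt p := by positivity
      linarith
    · rw [if_neg hj, zero_add]
      have h3 := sum_tuple_le hp2 hK hG f hsq hd1 hdG hcop ε hε j hj
      have h4 := (le_abs_self _).trans h3
      exact_mod_cast h4
  calc ∑ j : Fin (2 * K) → Fin m, ∑ x : ZMod p,
        ((∏ s, (ε (j s) * quadraticChar (ZMod p) ((f (j s)).eval x)) : ℤ) : ℝ)
      ≤ ∑ j : Fin (2 * K) → Fin m,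
        ((if j ∈ evenTuples (2 * K) m then (p : ℝ) else 0) + 48 * (G * K) * Real.sqrt p) :=
        Finset.sum_le_sum (fun j _ => h2 j)
    _ = ((evenTuples (2 * K) m).card : ℝ) * p
        + (m : ℝ) ^ (2 * K) * (48 * (G * K) * Real.sqrt p) := by
        rw [Finset.sum_add_distrib, Finset.sum_ite_mem, Finset.univ_inter, Finset.sum_const,
          Finset.sum_const, Finset.card_univ, nsmul_eq_mul, nsmul_eq_mul]
        simp [Fintype.card_fun]

/-- normalised function on the projective line; the point at infinity gets the value `1` -/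
noncomputable def Hf {m : ℕ} (f : Fin m → (ZMod p)[X]) (ε : Fin m → ℤ) (k : ℕ) :
    Option (ZMod p) → ℝ
  | none => 1
  | some x => (((∑ i, ε i * quadraticChar (ZMod p) ((f i).eval x) : ℤ) : ℝ) / m) ^ (2 * k)

lemma Hf_nonneg {m : ℕ} (f : Fin m → (ZMod p)[X]) (ε : Fin m → ℤ) (k : ℕ) (κ : Option (ZMod p)) :
    0 ≤ Hf f ε k κ := by
  cases κ with
  | none => exact zero_le_one
  | some x => exact (even_two_mul k).pow_nonneg _

lemma sum_Hf_sq_le (hp2 : p ≠ 2) {m k G : ℕ} (hk : 1 ≤ k) (hm : 1 ≤ m) (hG : 1 ≤ G)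
    (f : Fin m → (ZMod p)[X])
    (hsq : ∀ i, Squarefree (f i)) (hd1 : ∀ i, 1 ≤ (f i).natDegree) (hdG : ∀ i, (f i).natDegree ≤ G)
    (hcop : ∀ i j, i ≠ j → IsCoprime (f i) (f j)) (ε : Fin m → ℤ) (hε : ∀ i, |ε i| ≤ 1) :
    ∑ κ : Option (ZMod p), Hf f ε k κ ^ 2
      ≤ 2 * (4 * Real.exp 1 * k / m) ^ (2 * k) * p + 96 * (G * k) * Real.sqrt p + 1 := by
  classical
  have hmp : (0 : ℝ) < m := by exact_mod_cast hm
  rw [Fintype.sum_option]
  have h0 : Hf f ε k none ^ 2 = 1 := by
    unfold Hf; norm_num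
  have h5 : ∑ x : ZMod p, Hf f ε k (some x) ^ 2
      ≤ 2 * (4 * Real.exp 1 * k / m) ^ (2 * k) * p + 96 * (G * k) * Real.sqrt p := by
    have h6 := moment_le (p := p) hp2 (K := 2 * k) (by omega) hG f hsq hd1 hdG hcop ε hε
    have h7 := card_evenTuples_le (2 * k) m (by omega) hm
    have h8 : ∑ x : ZMod p, Hf f ε k (some x) ^ 2
        = (∑ x : ZMod p, (((∑ i, ε i * quadraticChar (ZMod p) ((f i).eval x) : ℤ) : ℝ))
            ^ (2 * (2 * k))) / (m : ℝ) ^ (2 * (2 * k)) := by
      rw [Finset.sum_div]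
      apply Finset.sum_congr rfl
      intro x _
      unfold Hf
      simp only
      rw [← pow_mul, div_pow]
      congr 2 <;> ring
    rw [h8, div_le_iff₀ (by positivity)]
    refine h6.trans ?_
    have h9 : (2 * Real.exp 1 * ((2 * k : ℕ) : ℝ) * m) ^ (2 * k)
        = (4 * Real.exp 1 * k / m) ^ (2 * k) * (m : ℝ) ^ (2 * (2 * k)) := by
      have e1 : (2 * Real.exp 1 * ((2 * k : ℕ) : ℝ) * m) = (4 * Real.exp 1 * k / m) * (m * m) := by
        push_cast
        field_simp
        ring
      rw [e1, mul_pow]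
      congr 1
      rw [← sq, ← pow_mul]
    rw [h9] at h7
    have h10 : ((evenTuples (2 * (2 * k)) m).card : ℝ) * p
        ≤ 2 * ((4 * Real.exp 1 * k / m) ^ (2 * k) * (m : ℝ) ^ (2 * (2 * k))) * p :=
      mul_le_mul_of_nonneg_right h7 (by positivity)
    push_cast at h10 ⊢
    have h11 : (m : ℝ) ^ (2 * (2 * k)) * (48 * (G * (2 * (k : ℝ))) * Real.sqrt p)
        = 96 * (G * k) * Real.sqrt p * (m : ℝ) ^ (2 * (2 * k)) := by ring
    have h12 : (2 * (4 * Real.exp 1 * k / m) ^ (2 * k) * (p : ℝ) + 96 * (G * k) * Real.sqrt p)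
          * (m : ℝ) ^ (2 * (2 * k))
        = 2 * ((4 * Real.exp 1 * k / m) ^ (2 * k) * (m : ℝ) ^ (2 * (2 * k))) * p
          + 96 * (G * k) * Real.sqrt p * (m : ℝ) ^ (2 * (2 * k)) := by ring
    rw [h12, h11]
    linarith
  linarith

end PolyC
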