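import Pool.Agent.W_aaa0df_h53.Exc

set_option autoImplicit false

namespace PolyC

open Polynomial Finset StepH53 MPaaa0df

/-- the `p`-adic unit part of a rational number -/
noncomputable def upart (p : ℕ) (r : ℚ) : ℚ := r * (p : ℚ) ^ (-padicValRat p r)

/-- the quadratic residue symbol of the `p`-adic unit part -/
noncomputable def uchar (p : ℕ) (r : ℚ) : ℤ :=
  jacobiSym ((upart p r).num * (upart p r).den) p

section

variable {p : ℕ} [hpF : Fact p.Prime]

lemma upart_ne_zero {r : ℚ} (hr : r ≠ 0) : upart p r ≠ 0 := by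
  have : (p : ℚ) ≠ 0 := by exact_mod_cast hpF.out.ne_zero
  exact mul_ne_zero hr (zpow_ne_zero _ this)

lemma padicValRat_upart {r : ℚ} (hr : r ≠ 0) : padicValRat p (upart p r) = 0 := by
  have hp0 : (p : ℚ) ≠ 0 := by exact_mod_cast hpF.out.ne_zero
  unfold upart
  rw [padicValRat.mul hr (zpow_ne_zero _ hp0), padicValRat.zpow, padicValRat.self hpF.out.one_lt]
  ring

lemma upart_num_den {r : ℚ} (hr : r ≠ 0) :
    (((upart p r).num : ℤ) : ZMod p) ≠ 0 ∧ (((upart p r).den : ℕ) : ZMod p) ≠ 0 := by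
  have h0 := upart_ne_zero (p := p) hr
  have h1 := padicValRat_upart (p := p) hr
  rw [padicValRat] at h1
  have hcop := (upart p r).reduced
  have hn0 : (upart p r).num ≠ 0 := Rat.num_ne_zero.2 h0
  have hd0 : (upart p r).den ≠ 0 := (upart p r).den_ne_zero
  have key : ¬ (p ∣ (upart p r).num.natAbs) ∧ ¬ (p ∣ (upart p r).den) := by
    by_cases hn : p ∣ (upart p r).num.natAbs
    · exfalso
      have hd : ¬ p ∣ (upart p r).den := by
        intro hd
        have := Nat.dvd_gcd hn hd
        rw [hcop] at this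
        exact hpF.out.one_lt.ne' (Nat.dvd_one.1 this)
      have e1 : padicValNat p (upart p r).den = 0 := padicValNat.eq_zero_of_not_dvd hd
      have e2 : 1 ≤ padicValNat p (upart p r).num.natAbs :=
        one_le_padicValNat_of_dvd (Int.natAbs_ne_zero.2 hn0) hn
      rw [e1] at h1
      unfold padicValInt at h1
      omega
    · refine ⟨hn, ?_⟩
      intro hd
      have e1 : padicValNat p (upart p r).num.natAbs = 0 := padicValNat.eq_zero_of_not_dvd hn
      have e2 : 1 ≤ padicValNat p (upart p r).den := one_le_padicValNat_of_dvd hd0 hd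
      unfold padicValInt at h1
      rw [e1] at h1
      omega
  constructor
  · rw [Ne, ZMod.intCast_zmod_eq_zero_iff_dvd]
    intro h
    exact key.1 (Int.natCast_dvd.1 h)
  · rw [Ne, ZMod.natCast_eq_zero_iff]
    exact key.2

lemma uchar_eq {r : ℚ} (hr : r ≠ 0) :
    uchar p r = quadraticChar (ZMod p) ((upart p r : ℚ) : ZMod p) := by
  obtain ⟨h1, h2⟩ := upart_num_den (p := p) hr
  unfold uchar
  rw [jac_eq]
  have h3 : ((upart p r : ℚ) : ZMod p) = ((upart p r).num : ZMod p) / ((upart p r).den : ZMod p) :=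
    Rat.cast_def _
  rw [h3]
  push_cast
  have h4 : ((upart p r).num : ZMod p) * ((upart p r).den : ZMod p)
      = ((upart p r).num : ZMod p) / ((upart p r).den : ZMod p) * ((upart p r).den : ZMod p) ^ 2 := by
    field_simp
  rw [h4, map_mul, map_pow, quadraticChar_sq_one h2, mul_one]

lemma upart_mul {a b : ℚ} (ha : a ≠ 0) (hb : b ≠ 0) :
    upart p (a * b) = upart p a * upart p b := by
  have hp0 : (p : ℚ) ≠ 0 := by exact_mod_cast hpF.out.ne_zero
  unfold upart
  rw [padicValRat.mul ha hb, neg_add, zpow_add₀ hp0]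
  ring

lemma uchar_mul {a b : ℚ} (ha : a ≠ 0) (hb : b ≠ 0) :
    uchar p (a * b) = uchar p a * uchar p b := by
  rw [uchar_eq (mul_ne_zero ha hb), uchar_eq ha, uchar_eq hb, upart_mul ha hb,
    Rat.cast_mul_of_ne_zero (upart_num_den ha).2 (upart_num_den hb).2, map_mul]

lemma uchar_sq_self {a : ℚ} (ha : a ≠ 0) : uchar p a * uchar p a = 1 := by
  rw [uchar_eq ha, ← sq]
  apply quadraticChar_sq_one
  obtain ⟨h1, h2⟩ := upart_num_den (p := p) ha
  rw [Rat.cast_def]
  exact div_ne_zero h1 h2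

lemma uchar_sq {a : ℚ} (ha : a ≠ 0) : uchar p (a ^ 2) = 1 := by
  rw [sq, uchar_mul ha ha, uchar_sq_self ha]

lemma uchar_int {d : ℤ} (hd : ¬ (p : ℤ) ∣ d) : uchar p d = jacobiSym d p := by
  have hd0 : d ≠ 0 := by rintro rfl; exact hd (dvd_zero _)
  have h1 : padicValRat p (d : ℚ) = 0 := by
    rw [padicValRat.of_int]
    have : padicValInt p d = 0 := padicValInt.eq_zero_of_not_dvd hd
    rw [this]; rfl
  unfold uchar upart
  rw [h1, neg_zero, zpow_zero, mul_one]
  simp

lemma uchar_zero_or (a : ℚ) : |uchar p a| ≤ 1 := by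
  unfold uchar
  exact abs_jac_le _ _

end

/-- the field `ℚ(√r)` is exceptional at height `X`: `r = d q²` with `q ≠ 0` rational, `d ≡ 0, 1`
mod 4 an integer with `X^η ≤ |d| ≤ X` and `N(d) < c (log X)²` -/
def ExcField (η c X : ℝ) (r : ℚ) : Prop :=
  ∃ (d : ℤ) (q : ℚ), q ≠ 0 ∧ r = d * q ^ 2 ∧ (d % 4 = 0 ∨ d % 4 = 1) ∧
    X ^ η ≤ |(d : ℝ)| ∧ |(d : ℝ)| ≤ X ∧ (N d : ℝ) < c * Real.log X ^ 2

/-- the primes at which an exceptional field is not inert -/
lemma excField_weight {η c X y Λ : ℝ} (hX : 1 < X) (hΛ : 0 ≤ Λ) (hc : 0 ≤ c) {r : ℚ}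
    (hr : ExcField η c X r)
    (hthr : ∀ d : ℤ, X ^ η ≤ |(d : ℝ)| → y ≤ threshold d)
    (P : Finset ℕ) (hP : ∀ p ∈ P, p.Prime ∧ p ≠ 2 ∧ (p : ℝ) < y ∧ Real.log p ≤ Λ) :
    ∑ p ∈ P.filter (fun p : ℕ => uchar p r ≠ -1), Real.log p
      ≤ c * Real.log X ^ 2 * Λ + Real.log X := by
  classical
  obtain ⟨d, q, hq, hrd, hd, hdX, hdX', hN⟩ := hr
  have hd0 : d ≠ 0 := by
    rintro rfl
    have h1 : (0 : ℝ) < X ^ η := Real.rpow_pos_of_pos (by linarith) _
    simp at hdX
    linarith
  have hdq : (d : ℚ) ≠ 0 := by exact_mod_cast hd0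
  have hsub : P.filter (fun p : ℕ => uchar p r ≠ -1)
      ⊆ P.filter (fun p : ℕ => (p : ℤ) ∣ d) ∪ P.filter (fun p : ℕ => jacobiSym d p = 1) := by
    intro p hp
    rw [Finset.mem_filter] at hp
    obtain ⟨hpP, hne⟩ := hp
    have : Fact p.Prime := ⟨(hP p hpP).1⟩
    by_cases hpd : (p : ℤ) ∣ d
    · exact Finset.mem_union_left _ (Finset.mem_filter.2 ⟨hpP, hpd⟩)
    · apply Finset.mem_union_right
      rw [Finset.mem_filter]
      refine ⟨hpP, ?_⟩
      have h1 : uchar p r = jacobiSym d p := by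
        rw [hrd, uchar_mul hdq (pow_ne_zero _ hq), uchar_sq hq, uchar_int hpd, mul_one]
      rw [h1] at hne
      rcases jacobiSym.trichotomy d p with h | h | h
      · exfalso
        rw [← jacobiSym.legendreSym.to_jacobiSym, legendreSym.eq_zero_iff,
          ZMod.intCast_zmod_eq_zero_iff_dvd] at h
        exact hpd h
      · exact h
      · exact absurd h hne
  have hlog : ∀ p : ℕ, 0 ≤ Real.log (p : ℝ) := fun p => Real.log_natCast_nonneg p
  have h1 : ∑ p ∈ P.filter (fun p : ℕ => (p : ℤ) ∣ d), Real.log p ≤ Real.log X := by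
    refine (sum_log_dvd_le P (fun p hp => (hP p hp).1) d hd0).trans ?_
    exact Real.log_le_log (abs_pos.2 (by exact_mod_cast hd0)) hdX'
  have h2 : ∑ p ∈ P.filter (fun p : ℕ => jacobiSym d p = 1), Real.log p
      ≤ c * Real.log X ^ 2 * Λ := by
    have h3 : ((P.filter (fun p : ℕ => jacobiSym d p = 1)).card : ℝ) ≤ N d := by
      have h4' : (P.filter (fun p : ℕ => jacobiSym d p = 1)).card ≤ N d := by
        unfold N
        refine le_trans ?_ (splitCount_mono' d (hthr d hdX))
        rw [splitCount_eq]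
        apply Finset.card_le_card
        intro p hp
        rw [Finset.mem_filter] at hp
        obtain ⟨hpP, hjd⟩ := hp
        obtain ⟨hpp, hp2, hpy, _⟩ := hP p hpP
        have : Fact p.Prime := ⟨hpp⟩
        rw [Finset.mem_filter, Nat.mem_primesBelow]
        have hpd : ¬ ((p : ℤ) ∣ d) := by
          intro h
          rw [← ZMod.intCast_zmod_eq_zero_iff_dvd, ← legendreSym.eq_zero_iff,
            jacobiSym.legendreSym.to_jacobiSym, hjd] at h
          norm_num at h
        exact ⟨⟨Nat.lt_ceil.2 hpy, hpp⟩, hpd, (split_iff hd hpp hp2 hpd).2 hjd⟩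
      exact_mod_cast h4'
    calc ∑ p ∈ P.filter (fun p : ℕ => jacobiSym d p = 1), Real.log p
        ≤ ∑ _p ∈ P.filter (fun p : ℕ => jacobiSym d p = 1), Λ := by
          apply Finset.sum_le_sum
          intro p hp
          exact (hP p (Finset.mem_filter.1 hp).1).2.2.2
      _ = ((P.filter (fun p : ℕ => jacobiSym d p = 1)).card : ℝ) * Λ := by
          rw [Finset.sum_const, nsmul_eq_mul]
      _ ≤ c * Real.log X ^ 2 * Λ := mul_le_mul_of_nonneg_right (h3.trans hN.le) hΛ
  calc ∑ p ∈ P.filter (fun p : ℕ => uchar p r ≠ -1), Real.log p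
      ≤ ∑ p ∈ P.filter (fun p : ℕ => (p : ℤ) ∣ d) ∪ P.filter (fun p : ℕ => jacobiSym d p = 1),
          Real.log p := Finset.sum_le_sum_of_subset_of_nonneg hsub (fun p _ _ => hlog p)
    _ ≤ ∑ p ∈ P.filter (fun p : ℕ => (p : ℤ) ∣ d), Real.log p
        + ∑ p ∈ P.filter (fun p : ℕ => jacobiSym d p = 1), Real.log p := by
        rw [← Finset.sum_union_inter]
        have : 0 ≤ ∑ p ∈ P.filter (fun p : ℕ => (p : ℤ) ∣ d) ∩
          P.filter (fun p : ℕ => jacobiSym d p = 1), Real.log (p : ℝ) :=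
          Finset.sum_nonneg (fun p _ => hlog p)
        linarith
    _ ≤ _ := by linarith

lemma excField_ne_zero {η c X : ℝ} (hX : 0 < X) {r : ℚ} (hr : ExcField η c X r) : r ≠ 0 := by
  obtain ⟨d, q, hq, hrd, hd, hdX, hdX', hN⟩ := hr
  have hd0 : d ≠ 0 := by
    rintro rfl
    have h1 : (0 : ℝ) < X ^ η := Real.rpow_pos_of_pos (by linarith) _
    simp at hdX
    linarith
  have hdq : (d : ℚ) ≠ 0 := by exact_mod_cast hd0
  rw [hrd]
  exact mul_ne_zero hdq (pow_ne_zero _ hq)

/-- the numerator of `f(x)`, multiplied by the denominator: an integer in the square class of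
`f(x)` -/
noncomputable def val (f : ℤ[X]) (x : ℚ) : ℤ :=
  (∑ i ∈ Finset.range (f.natDegree + 1), f.coeff i * x.num ^ i * (x.den : ℤ) ^ (f.natDegree - i))
    * (x.den : ℤ) ^ f.natDegree

lemma val_eq (f : ℤ[X]) (x : ℚ) :
    (val f x : ℚ) = aeval x f * ((x.den : ℚ) ^ f.natDegree) ^ 2 := by
  have hd : (x.den : ℚ) ≠ 0 := by exact_mod_cast x.den_ne_zero
  have key : ∑ i ∈ Finset.range (f.natDegree + 1),
      (f.coeff i : ℚ) * (x.num : ℚ) ^ i * (x.den : ℚ) ^ (f.natDegree - i)
      = aeval x f * (x.den : ℚ) ^ f.natDegree := by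
    rw [aeval_eq_sum_range, Finset.sum_mul]
    apply Finset.sum_congr rfl
    intro i hi
    have hi' : i ≤ f.natDegree := by
      rw [Finset.mem_range] at hi; omega
    have h1 : x ^ i * (x.den : ℚ) ^ i = (x.num : ℚ) ^ i := by
      rw [← mul_pow, Rat.mul_den_eq_num]
    have h2 : (x.den : ℚ) ^ f.natDegree = (x.den : ℚ) ^ i * (x.den : ℚ) ^ (f.natDegree - i) := by
      rw [← pow_add]; congr 1; omega
    rw [h2, ← h1]
    simp only [zsmul_eq_mul]
    ring
  unfold val
  push_cast
  rw [key]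
  ring

lemma abs_val_le (f : ℤ[X]) (x : ℚ) {G : ℕ} {X : ℝ} (hX : 1 ≤ X) (hfG : f.natDegree ≤ G)
    (hf : ∀ i, |(f.coeff i : ℝ)| ≤ X) (hn : |(x.num : ℝ)| ≤ X) (hd : (x.den : ℝ) ≤ X) :
    |(val f x : ℝ)| ≤ (G + 1) * X ^ (2 * G + 1) := by
  unfold val
  push_cast
  rw [abs_mul, abs_pow, Nat.abs_cast]
  have h1 : |∑ i ∈ Finset.range (f.natDegree + 1),
      (f.coeff i : ℝ) * (x.num : ℝ) ^ i * (x.den : ℝ) ^ (f.natDegree - i)|
      ≤ (f.natDegree + 1) * X ^ (G + 1) := by
    calc |∑ i ∈ Finset.range (f.natDegree + 1),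
        (f.coeff i : ℝ) * (x.num : ℝ) ^ i * (x.den : ℝ) ^ (f.natDegree - i)|
        ≤ ∑ i ∈ Finset.range (f.natDegree + 1),
        |(f.coeff i : ℝ) * (x.num : ℝ) ^ i * (x.den : ℝ) ^ (f.natDegree - i)| :=
          Finset.abs_sum_le_sum_abs _ _
      _ ≤ ∑ _i ∈ Finset.range (f.natDegree + 1), X ^ (G + 1) := by
          apply Finset.sum_le_sum
          intro i hi
          have hi' : i ≤ f.natDegree := by
            rw [Finset.mem_range] at hi; omega
          rw [abs_mul, abs_mul, abs_pow, abs_pow, Nat.abs_cast]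
          calc |(f.coeff i : ℝ)| * |(x.num : ℝ)| ^ i * (x.den : ℝ) ^ (f.natDegree - i)
              ≤ X * X ^ i * X ^ (f.natDegree - i) := by
                apply mul_le_mul
                · exact mul_le_mul (hf i) (pow_le_pow_left₀ (abs_nonneg _) hn i)
                    (by positivity) (by linarith)
                · exact pow_le_pow_left₀ (by positivity) hd _
                · positivity
                · positivity
            _ = X ^ (f.natDegree + 1) := by
                have : f.natDegree + 1 = 1 + i + (f.natDegree - i) := by omega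
                rw [this, pow_add, pow_add, pow_one]
            _ ≤ X ^ (G + 1) := pow_le_pow_right₀ hX (by omega)
      _ = (f.natDegree + 1) * X ^ (G + 1) := by
          rw [Finset.sum_const, Finset.card_range, nsmul_eq_mul]
          push_cast; ring
  have h2 : (x.den : ℝ) ^ f.natDegree ≤ X ^ G :=
    (pow_le_pow_left₀ (by positivity) hd _).trans (pow_le_pow_right₀ hX hfG)
  have h3 : ((f.natDegree : ℝ) + 1) * X ^ (G + 1) ≤ (G + 1) * X ^ (G + 1) := by
    apply mul_le_mul_of_nonneg_right _ (by positivity)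
    have : (f.natDegree : ℝ) ≤ G := by exact_mod_cast hfG
    linarith
  calc |∑ i ∈ Finset.range (f.natDegree + 1),
      (f.coeff i : ℝ) * (x.num : ℝ) ^ i * (x.den : ℝ) ^ (f.natDegree - i)|
        * (x.den : ℝ) ^ f.natDegree
      ≤ ((G + 1) * X ^ (G + 1)) * X ^ G :=
        mul_le_mul (h1.trans h3) h2 (by positivity) (by positivity)
    _ = (G + 1) * X ^ (2 * G + 1) := by ring

section

variable {p : ℕ} [hpF : Fact p.Prime]

/-- the symbol of `val f x` at a prime not dividing the denominator of `x` -/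
lemma jac_val (f : ℤ[X]) (x : ℚ) (hx : (x.den : ZMod p) ≠ 0) :
    jacobiSym (val f x) p
      = quadraticChar (ZMod p) ((f.map (Int.castRingHom (ZMod p))).eval
          ((x.num : ZMod p) / (x.den : ZMod p))) := by
  rw [jac_eq]
  have h1 : ((val f x : ℤ) : ZMod p)
      = (f.map (Int.castRingHom (ZMod p))).eval ((x.num : ZMod p) / (x.den : ZMod p))
        * ((x.den : ZMod p) ^ f.natDegree) ^ 2 := by
    have key : ∑ i ∈ Finset.range (f.natDegree + 1),
        (f.coeff i : ZMod p) * (x.num : ZMod p) ^ i * (x.den : ZMod p) ^ (f.natDegree - i)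
        = (f.map (Int.castRingHom (ZMod p))).eval ((x.num : ZMod p) / (x.den : ZMod p))
          * (x.den : ZMod p) ^ f.natDegree := by
      rw [eval_map, eval₂_eq_sum_range, Finset.sum_mul]
      apply Finset.sum_congr rfl
      intro i hi
      have hi' : i ≤ f.natDegree := by
        rw [Finset.mem_range] at hi; omega
      have h2 : ((x.den : ZMod p)) ^ f.natDegree
          = (x.den : ZMod p) ^ i * (x.den : ZMod p) ^ (f.natDegree - i) := by
        rw [← pow_add]; congr 1; omega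
      rw [h2, div_pow]
      simp only [eq_intCast]
      field_simp
    unfold val
    push_cast
    rw [key]
    ring
  rw [h1, map_mul, map_pow, quadraticChar_sq_one (pow_ne_zero _ hx), mul_one]

end

end PolyC
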