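import Pool.Agent.W_aaa0df_pc.PolB
import Pool.Agent.W_aaa0df_pc.PolC

set_option autoImplicit false

namespace PolyC

open Polynomial Finset StepH53 MPaaa0df

/-- the vector (numerator, denominator) -/
def pr (x : ℚ) : ℤ × ℤ := (x.num, (x.den : ℤ))

lemma wedge_pr_ne_zero {x x' : ℚ} (h : x ≠ x') : wedge (pr x) (pr x') ≠ 0 := by
  intro h0
  apply h
  unfold wedge pr at h0
  simp only at h0
  have h1 : (x.den : ℚ) ≠ 0 := by exact_mod_cast x.den_ne_zero
  have h2 : (x'.den : ℚ) ≠ 0 := by exact_mod_cast x'.den_ne_zero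
  rw [← Rat.num_div_den x, ← Rat.num_div_den x', div_eq_div_iff h1 h2]
  have h3 : ((x.num * (x'.den : ℤ) - (x.den : ℤ) * x'.num : ℤ) : ℚ) = 0 := by
    rw [h0]; norm_num
  push_cast at h3
  linarith

/-- the normalised moment function of a rational number -/
noncomputable def gfun {m : ℕ} (f : Fin m → ℤ[X]) (ε : Fin m → ℤ) (k p : ℕ) (x : ℚ) : ℝ :=
  if (p : ℤ) ∣ (x.den : ℤ) then 1
  else (((∑ j, ε j * jacobiSym (val (f j) x) p : ℤ) : ℝ) / m) ^ (2 * k)

lemma gfun_nonneg {m : ℕ} (f : Fin m → ℤ[X]) (ε : Fin m → ℤ) (k p : ℕ) (x : ℚ) :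
    0 ≤ gfun f ε k p x := by
  unfold gfun
  split_ifs
  · exact zero_le_one
  · exact (even_two_mul k).pow_nonneg _

section

variable {p : ℕ} [hpF : Fact p.Prime]

lemma gfun_eq {m : ℕ} (f : Fin m → ℤ[X]) (ε : Fin m → ℤ) (k : ℕ) (x : ℚ) :
    gfun f ε k p x
      = Hf (fun j => (f j).map (Int.castRingHom (ZMod p))) ε k (kap p (pr x)) := by
  unfold gfun kap pr
  by_cases h : (p : ℤ) ∣ (x.den : ℤ)
  · have h1 : (((x.den : ℤ) : ℤ) : ZMod p) = 0 := by
      rw [ZMod.intCast_zmod_eq_zero_iff_dvd]; exact h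
    rw [if_pos h, if_pos h1]
    rfl
  · have h1 : (((x.den : ℤ) : ℤ) : ZMod p) ≠ 0 := by
      rw [Ne, ZMod.intCast_zmod_eq_zero_iff_dvd]; exact h
    rw [if_neg h, if_neg h1]
    unfold Hf
    simp only
    have h2 : (x.den : ZMod p) ≠ 0 := by
      intro h3; apply h1; push_cast; exact h3
    congr 3
    apply Finset.sum_congr rfl
    intro j _
    rw [jac_val (f j) x h2]
    push_cast
    rfl

lemma per_prime (hp2 : p ≠ 2) {m k G : ℕ} (hk : 1 ≤ k) (hm : 1 ≤ m) (hG : 1 ≤ G)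
    (f : Fin m → ℤ[X])
    (hsq : ∀ i, Squarefree ((f i).map (Int.castRingHom (ZMod p))))
    (hd1 : ∀ i, 1 ≤ ((f i).map (Int.castRingHom (ZMod p))).natDegree)
    (hdG : ∀ i, (f i).natDegree ≤ G)
    (hcop : ∀ i j, i ≠ j → IsCoprime ((f i).map (Int.castRingHom (ZMod p)))
      ((f j).map (Int.castRingHom (ZMod p)))) (ε : Fin m → ℤ) (hε : ∀ i, |ε i| ≤ 1)
    (A : Finset ℚ) :
    (∑ a ∈ A, gfun f ε k p a) ^ 2
      ≤ (((A ×ˢ A).filter (fun x => (p : ℤ) ∣ wedge (pr x.1) (pr x.2))).card : ℝ)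
        * (2 * (4 * Real.exp 1 * k / m) ^ (2 * k) * p + 96 * (G * k) * Real.sqrt p + 1) := by
  classical
  set F : Fin m → (ZMod p)[X] := fun j => (f j).map (Int.castRingHom (ZMod p)) with hF
  set Nc : Option (ZMod p) → ℝ :=
    fun κ => ((A.filter (fun a => kap p (pr a) = κ)).card : ℝ) with hNc
  have h1 : ∑ a ∈ A, gfun f ε k p a = ∑ κ : Option (ZMod p), Nc κ * Hf F ε k κ := by
    calc ∑ a ∈ A, gfun f ε k p a = ∑ a ∈ A, Hf F ε k (kap p (pr a)) :=
          Finset.sum_congr rfl (fun a _ => gfun_eq f ε k a)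
      _ = ∑ κ : Option (ZMod p), ∑ a ∈ A.filter (fun a => kap p (pr a) = κ),
            Hf F ε k (kap p (pr a)) :=
          (Finset.sum_fiberwise A (fun a => kap p (pr a)) (fun a => Hf F ε k (kap p (pr a)))).symm
      _ = ∑ κ : Option (ZMod p), Nc κ * Hf F ε k κ := by
          apply Finset.sum_congr rfl
          intro κ _
          rw [Finset.sum_congr rfl (g := fun _ => Hf F ε k κ), Finset.sum_const, nsmul_eq_mul]
          intro a ha
          rw [(Finset.mem_filter.1 ha).2]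
  have h2 : (∑ κ : Option (ZMod p), Nc κ * Hf F ε k κ) ^ 2
      ≤ (∑ κ, Nc κ ^ 2) * ∑ κ, Hf F ε k κ ^ 2 := Finset.sum_mul_sq_le_sq_mul_sq _ _ _
  have h3 : ∑ κ, Nc κ ^ 2
      ≤ (((A ×ˢ A).filter (fun x => (p : ℤ) ∣ wedge (pr x.1) (pr x.2))).card : ℝ) := by
    have h4 : ∀ κ, Nc κ ^ 2
        = ((((A ×ˢ A).filter (fun x => kap p (pr x.1) = kap p (pr x.2))).filter
        (fun x => kap p (pr x.1) = κ)).card : ℝ) := by
      intro κ
      rw [hNc]
      simp only
      rw [sq, ← Nat.cast_mul, ← Finset.card_product]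
      congr 2
      ext x
      simp only [Finset.mem_filter, Finset.mem_product]
      constructor
      · rintro ⟨⟨h5, h6⟩, h7, h8⟩
        exact ⟨⟨⟨h5, h7⟩, by rw [h6, h8]⟩, h6⟩
      · rintro ⟨⟨⟨h5, h7⟩, h8⟩, h6⟩
        exact ⟨⟨h5, h6⟩, h7, by rw [← h8, h6]⟩
    rw [Finset.sum_congr rfl (fun κ _ => h4 κ), ← Nat.cast_sum]
    have h5 := Finset.card_eq_sum_card_fiberwise
      (s := (A ×ˢ A).filter (fun x => kap p (pr x.1) = kap p (pr x.2)))
      (t := (univ : Finset (Option (ZMod p)))) (f := fun x => kap p (pr x.1))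
      (fun _ _ => Finset.mem_coe.2 (Finset.mem_univ _))
    rw [← h5]
    have h6 : (A ×ˢ A).filter (fun x => kap p (pr x.1) = kap p (pr x.2))
        ⊆ (A ×ˢ A).filter (fun x => (p : ℤ) ∣ wedge (pr x.1) (pr x.2)) := by
      intro x hx
      rw [Finset.mem_filter] at hx ⊢
      exact ⟨hx.1, kap_eq_dvd hx.2⟩
    exact_mod_cast Finset.card_le_card h6
  have h4 := sum_Hf_sq_le (p := p) hp2 hk hm hG F hsq hd1
    (fun i => (natDegree_map_le).trans (hdG i)) hcop ε hε
  have h5 : 0 ≤ ∑ κ, Hf F ε k κ ^ 2 := Finset.sum_nonneg (fun κ _ => sq_nonneg _)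
  rw [h1]
  calc (∑ κ : Option (ZMod p), Nc κ * Hf F ε k κ) ^ 2
      ≤ (∑ κ, Nc κ ^ 2) * ∑ κ, Hf F ε k κ ^ 2 := h2
    _ ≤ _ := mul_le_mul h3 h4 h5 (by positivity)

end

/-- the columns are good modulo `p` -/
def GoodAt {m : ℕ} (f : Fin m → ℤ[X]) (p : ℕ) : Prop :=
  (∀ i, Squarefree ((f i).map (Int.castRingHom (ZMod p)))) ∧
  (∀ i, 1 ≤ ((f i).map (Int.castRingHom (ZMod p))).natDegree) ∧
  (∀ i j, i ≠ j → IsCoprime ((f i).map (Int.castRingHom (ZMod p)))
      ((f j).map (Int.castRingHom (ZMod p))))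

/-- the larger sieve inequality -/
lemma sieve_main {m k G : ℕ} (hk : 1 ≤ k) (hm : 1 ≤ m) (hG : 1 ≤ G) (P : Finset ℕ)
    (f : Fin m → ℤ[X]) (hdG : ∀ i, (f i).natDegree ≤ G)
    (hP : ∀ p ∈ P, p.Prime ∧ p ≠ 2 ∧ GoodAt f p)
    (t : Fin m → ℚ) (s : ℚ → ℚ) (A : Finset ℚ)
    (hs : ∀ a ∈ A, s a ≠ 0)
    (Mw : ℝ) (hMw : 1 ≤ Mw)
    (hA : ∀ a ∈ A, ∀ a' ∈ A, a ≠ a' → |((wedge (pr a) (pr a') : ℤ) : ℝ)| ≤ Mw)
    (W : ℝ) (hW : ∀ a ∈ A, ∑ p ∈ P.filter
      (fun p : ℕ => ∃ j, uchar p (s a) * uchar p (t j) * jacobiSym (val (f j) a) p ≠ -1),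
        Real.log p ≤ W)
    (hWθ : W ≤ ∑ p ∈ P, Real.log p) :
    (A.card * (∑ p ∈ P, Real.log p - W)) ^ 2
      ≤ (A.card * ∑ p ∈ P, Real.log p + (A.card : ℝ) ^ 2 * Real.log Mw)
        * ∑ p ∈ P, Real.log p
          * (2 * (4 * Real.exp 1 * k / m) ^ (2 * k) * p + 96 * (G * k) * Real.sqrt p + 1) := by
  classical
  set θ := ∑ p ∈ P, Real.log p with hθ
  have hlog : ∀ p ∈ P, 0 ≤ Real.log p := fun p _ => Real.log_natCast_nonneg p
  set ε : ℕ → Fin m → ℤ := fun p j => uchar p (t j) with hε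
  set S : ℕ → ℝ := fun p => ∑ a ∈ A, gfun f (ε p) k p a with hS
  set Q : ℕ → ℝ :=
    fun p => (((A ×ˢ A).filter (fun x => (p : ℤ) ∣ wedge (pr x.1) (pr x.2))).card : ℝ) with hQ
  set Bd : ℕ → ℝ :=
    fun p => 2 * (4 * Real.exp 1 * k / m) ^ (2 * k) * p + 96 * (G * k) * Real.sqrt p + 1 with hBd
  have hBd0 : ∀ p, 0 ≤ Bd p := by
    intro p
    have : 0 ≤ (4 * Real.exp 1 * (k : ℝ) / m) ^ (2 * k) := by positivity
    simp only [hBd]
    positivity
  have hS0 : ∀ p, 0 ≤ S p := fun p => Finset.sum_nonneg (fun a _ => gfun_nonneg _ _ _ _ _)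
  have hpp : ∀ p ∈ P, S p ^ 2 ≤ Q p * Bd p := by
    intro p hp
    obtain ⟨h1, h2, h3, h4, h5⟩ := hP p hp
    have : Fact p.Prime := ⟨h1⟩
    exact per_prime h2 hk hm hG f h3 h4 hdG h5 (ε p) (fun i => uchar_zero_or _) A
  -- lower bound
  have hlow : A.card * (θ - W) ≤ ∑ p ∈ P, Real.log p * S p := by
    have h1 : ∀ a ∈ A, θ - W ≤ ∑ p ∈ P, Real.log p * gfun f (ε p) k p a := by
      intro a ha
      have h2 : θ - ∑ p ∈ P.filter
          (fun p : ℕ => ∃ j, uchar p (s a) * uchar p (t j) * jacobiSym (val (f j) a) p ≠ -1),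
            Real.log p
          = ∑ p ∈ P.filter
          (fun p : ℕ => ¬ ∃ j, uchar p (s a) * uchar p (t j) * jacobiSym (val (f j) a) p ≠ -1),
            Real.log p := by
        rw [hθ, ← Finset.sum_filter_add_sum_filter_not P
          (fun p : ℕ => ∃ j, uchar p (s a) * uchar p (t j) * jacobiSym (val (f j) a) p ≠ -1)]
        ring
      have h3 : ∑ p ∈ P.filter
          (fun p : ℕ => ¬ ∃ j, uchar p (s a) * uchar p (t j) * jacobiSym (val (f j) a) p ≠ -1),
            Real.log p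
          ≤ ∑ p ∈ P, Real.log p * gfun f (ε p) k p a := by
        rw [Finset.sum_filter]
        apply Finset.sum_le_sum
        intro p hp
        by_cases hc : ¬ ∃ j, uchar p (s a) * uchar p (t j) * jacobiSym (val (f j) a) p ≠ -1
        · rw [if_pos hc]
          push Not at hc
          have h4 : gfun f (ε p) k p a = 1 := by
            unfold gfun
            have : Fact p.Prime := ⟨(hP p hp).1⟩
            split_ifs with hden
            · rfl
            have h6 : uchar p (s a) * uchar p (s a) = 1 := uchar_sq_self (hs a ha)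
            have h8 : ∑ j, ε p j * jacobiSym (val (f j) a) p = - uchar p (s a) * m := by
              have h9 : ∀ j, ε p j * jacobiSym (val (f j) a) p = - uchar p (s a) := by
                intro j
                have h10 := hc j
                simp only [hε]
                calc uchar p (t j) * jacobiSym (val (f j) a) p
                    = (uchar p (s a) * uchar p (s a))
                      * (uchar p (t j) * jacobiSym (val (f j) a) p) := by rw [h6, one_mul]
                  _ = uchar p (s a)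
                      * (uchar p (s a) * uchar p (t j) * jacobiSym (val (f j) a) p) := by ring
                  _ = - uchar p (s a) := by rw [h10]; ring
              rw [Finset.sum_congr rfl (fun j _ => h9 j), Finset.sum_const, Finset.card_univ,
                Fintype.card_fin, nsmul_eq_mul]
              ring
            rw [h8]
            have hmr : (m : ℝ) ≠ 0 := by
              have : (0 : ℝ) < m := by exact_mod_cast hm
              exact this.ne'
            push_cast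
            rw [mul_div_assoc, div_self hmr, mul_one, pow_mul, neg_sq]
            have h12 : ((uchar p (s a) : ℤ) : ℝ) ^ 2 = 1 := by
              rw [sq]; exact_mod_cast h6
            rw [h12, one_pow]
          rw [h4, mul_one]
        · rw [if_neg hc]
          exact mul_nonneg (hlog p hp) (gfun_nonneg _ _ _ _ _)
      have h4 := hW a ha
      linarith
    calc A.card * (θ - W) = ∑ _a ∈ A, (θ - W) := by rw [Finset.sum_const, nsmul_eq_mul]
      _ ≤ ∑ a ∈ A, ∑ p ∈ P, Real.log p * gfun f (ε p) k p a := Finset.sum_le_sum h1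
      _ = ∑ p ∈ P, Real.log p * S p := by
          rw [Finset.sum_comm]
          apply Finset.sum_congr rfl
          intro p _
          rw [hS, Finset.mul_sum]
  -- Cauchy–Schwarz
  have hcs : (∑ p ∈ P, Real.log p * S p) ^ 2
      ≤ (∑ p ∈ P, Real.log p * Q p) * ∑ p ∈ P, Real.log p * Bd p := by
    have h1 : ∑ p ∈ P, Real.log p * S p
        ≤ ∑ p ∈ P, Real.sqrt (Real.log p * Q p) * Real.sqrt (Real.log p * Bd p) := by
      apply Finset.sum_le_sum
      intro p hp
      have hl := hlog p hp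
      have hQ0 : 0 ≤ Q p := Nat.cast_nonneg _
      rw [← Real.sqrt_mul (mul_nonneg hl hQ0)]
      apply Real.le_sqrt_of_sq_le
      have := hpp p hp
      calc (Real.log p * S p) ^ 2 = Real.log p ^ 2 * S p ^ 2 := by ring
        _ ≤ Real.log p ^ 2 * (Q p * Bd p) := mul_le_mul_of_nonneg_left this (sq_nonneg _)
        _ = Real.log p * Q p * (Real.log p * Bd p) := by ring
    have h2 := Finset.sum_mul_sq_le_sq_mul_sq P (fun p => Real.sqrt (Real.log p * Q p))
      (fun p => Real.sqrt (Real.log p * Bd p))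
    have h3 : ∑ p ∈ P, Real.sqrt (Real.log p * Q p) ^ 2 = ∑ p ∈ P, Real.log p * Q p := by
      apply Finset.sum_congr rfl
      intro p hp
      exact Real.sq_sqrt (mul_nonneg (hlog p hp) (Nat.cast_nonneg _))
    have h4 : ∑ p ∈ P, Real.sqrt (Real.log p * Bd p) ^ 2 = ∑ p ∈ P, Real.log p * Bd p := by
      apply Finset.sum_congr rfl
      intro p hp
      exact Real.sq_sqrt (mul_nonneg (hlog p hp) (hBd0 p))
    rw [h3, h4] at h2
    have h5 : 0 ≤ ∑ p ∈ P, Real.log p * S p :=
      Finset.sum_nonneg (fun p hp => mul_nonneg (hlog p hp) (hS0 p))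
    exact (pow_le_pow_left₀ h5 h1 2).trans h2
  -- Gallagher
  have hgal : ∑ p ∈ P, Real.log p * Q p ≤ A.card * θ + (A.card : ℝ) ^ 2 * Real.log Mw := by
    have h1 : ∑ p ∈ P, Real.log p * Q p
        = ∑ x ∈ A ×ˢ A, ∑ p ∈ P.filter (fun p : ℕ => (p : ℤ) ∣ wedge (pr x.1) (pr x.2)),
          Real.log p := by
      have h2 : ∀ p : ℕ, Real.log (p : ℝ) * Q p = ∑ x ∈ A ×ˢ A,
          if (p : ℤ) ∣ wedge (pr x.1) (pr x.2) then Real.log p else 0 := by
        intro p
        rw [← Finset.sum_filter, Finset.sum_const, nsmul_eq_mul, mul_comm]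
      rw [Finset.sum_congr rfl (fun p _ => h2 p), Finset.sum_comm]
      apply Finset.sum_congr rfl
      intro x _
      rw [Finset.sum_filter]
    rw [h1]
    have hlM : 0 ≤ Real.log Mw := Real.log_nonneg hMw
    have h3 : ∀ x ∈ A ×ˢ A,
        ∑ p ∈ P.filter (fun p : ℕ => (p : ℤ) ∣ wedge (pr x.1) (pr x.2)), Real.log p
        ≤ (if x.1 = x.2 then θ else 0) + Real.log Mw := by
      intro x hx
      rw [Finset.mem_product] at hx
      by_cases h : x.1 = x.2
      · rw [if_pos h]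
        have h4 : ∑ p ∈ P.filter (fun p : ℕ => (p : ℤ) ∣ wedge (pr x.1) (pr x.2)), Real.log p ≤ θ :=
          Finset.sum_le_sum_of_subset_of_nonneg (Finset.filter_subset _ _)
            (fun p hp _ => hlog p hp)
        linarith
      · rw [if_neg h, zero_add]
        have h5 := wedge_pr_ne_zero h
        have h6 := hA x.1 hx.1 x.2 hx.2 h
        refine (sum_log_dvd_le P (fun p hp => (hP p hp).1) _ h5).trans ?_
        apply Real.log_le_log _ h6
        exact abs_pos.2 (by exact_mod_cast h5)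
    refine (Finset.sum_le_sum h3).trans ?_
    rw [Finset.sum_add_distrib, Finset.sum_const, Finset.card_product, nsmul_eq_mul,
      ← Finset.sum_filter, Finset.sum_const, nsmul_eq_mul]
    have h4 : ((A ×ˢ A).filter (fun x => x.1 = x.2)).card = A.card := by
      symm
      apply Finset.card_bij (fun a _ => (a, a))
      · intro a ha
        simp [ha]
      · intro a _ a' _ h
        exact (Prod.mk.inj h).1
      · rintro ⟨x, y⟩ hx
        rw [Finset.mem_filter, Finset.mem_product] at hx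
        obtain ⟨⟨h5, _⟩, h6⟩ := hx
        simp only at h5 h6
        exact ⟨x, h5, by rw [h6]⟩
    rw [h4]
    push_cast
    nlinarith
  have h0 : 0 ≤ A.card * (θ - W) := mul_nonneg (Nat.cast_nonneg _) (by linarith)
  have hB0 : 0 ≤ ∑ p ∈ P, Real.log p * Bd p :=
    Finset.sum_nonneg (fun p hp => mul_nonneg (hlog p hp) (hBd0 p))
  calc (A.card * (θ - W)) ^ 2 ≤ (∑ p ∈ P, Real.log p * S p) ^ 2 := pow_le_pow_left₀ h0 hlow 2
    _ ≤ (∑ p ∈ P, Real.log p * Q p) * ∑ p ∈ P, Real.log p * Bd p := hcs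
    _ ≤ _ := mul_le_mul_of_nonneg_right hgal hB0

end PolyC
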