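import Pool.Agent.W_aaa0df_pc.PolD
import Pool.Agent.W_aaa0df_h53.Main1

set_option autoImplicit false

namespace PolyC

open Polynomial Finset StepH53 MPaaa0df Filter

/-- admissible columns: degrees between `1` and `G`, coefficients at most `X`, squarefree over `ℚ` -/
def Col (G : ℕ) (X : ℝ) (f : ℤ[X]) : Prop :=
  1 ≤ f.natDegree ∧ f.natDegree ≤ G ∧ (∀ k, |(f.coeff k : ℝ)| ≤ X) ∧
    Squarefree (f.map (Int.castRingHom ℚ))

/-- the bad primes of a family of columns divide `m²` non-zero integers of controlled size -/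
lemma bad_cert {G m : ℕ} (hG : 1 ≤ G) {X : ℝ} (hX : 1 ≤ X) (f : Fin m → ℤ[X])
    (hf : ∀ i, Col G X (f i))
    (hcop : ∀ i j, i ≠ j → IsCoprime ((f i).map (Int.castRingHom ℚ))
      ((f j).map (Int.castRingHom ℚ)))
    (hXG : Real.log (((2 * G).factorial * G ^ (2 * G) : ℕ) : ℝ) ≤ Real.log X) :
    ∃ R : Fin m × Fin m → ℤ, (∀ x, R x ≠ 0) ∧
      (∀ x, Real.log |(R x : ℝ)| ≤ (2 * G + 2) * Real.log X) ∧
      ∀ p : ℕ, p.Prime → (∀ x, ¬ (p : ℤ) ∣ R x) → GoodAt f p := by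
  classical
  have hX0 : 0 < X := by linarith
  have hL0 : 0 ≤ Real.log X := Real.log_nonneg hX
  set B : ℕ := ⌊X⌋₊ with hB
  have hB1 : 1 ≤ B := Nat.one_le_floor_iff _ |>.2 hX
  have hBX : (B : ℝ) ≤ X := Nat.floor_le hX0.le
  have hcB : ∀ i k, |(f i).coeff k| ≤ (B : ℤ) := by
    intro i k
    have h1 := (hf i).2.2.1 k
    have h2 : (((f i).coeff k).natAbs : ℝ) ≤ X := by
      rw [Nat.cast_natAbs]; push_cast; exact h1
    have h3 : ((f i).coeff k).natAbs ≤ B := Nat.le_floor h2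
    rw [Int.abs_eq_natAbs]
    exact_mod_cast h3
  have hFG : (0 : ℝ) < (((2 * G).factorial * G ^ (2 * G) : ℕ) : ℝ) := by
    have : 0 < (2 * G).factorial * G ^ (2 * G) :=
      Nat.mul_pos (Nat.factorial_pos _) (Nat.pow_pos hG)
    exact_mod_cast this
  have hlogbd : ∀ R : ℤ, R ≠ 0 →
      |(R : ℝ)| ≤ (((2 * G).factorial * G ^ (2 * G) : ℕ) : ℝ) * X ^ (2 * G + 1) →
      Real.log |(R : ℝ)| ≤ (2 * G + 2) * Real.log X := by
    intro R hR0 hR
    have h0 : (0 : ℝ) < |(R : ℝ)| := abs_pos.2 (by exact_mod_cast hR0)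
    have h1 := Real.log_le_log h0 hR
    rw [Real.log_mul hFG.ne' (by positivity), Real.log_pow] at h1
    push_cast at h1 hXG ⊢
    linarith
  have key : ∀ x : Fin m × Fin m, ∃ R : ℤ, R ≠ 0 ∧
      Real.log |(R : ℝ)| ≤ (2 * G + 2) * Real.log X ∧
      ∀ p : ℕ, p.Prime → ¬ (p : ℤ) ∣ R →
        (x.1 = x.2 → Squarefree ((f x.1).map (Int.castRingHom (ZMod p))) ∧
          1 ≤ ((f x.1).map (Int.castRingHom (ZMod p))).natDegree) ∧
        (x.1 ≠ x.2 → IsCoprime ((f x.1).map (Int.castRingHom (ZMod p)))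
          ((f x.2).map (Int.castRingHom (ZMod p)))) := by
    rintro ⟨i, j⟩
    by_cases hij : i = j
    · obtain ⟨R, hR0, hRle, hR⟩ := cert_sqf (f i) (hf i).1 (hf i).2.1 (hcB i) hB1 (hf i).2.2.2
      refine ⟨R, hR0, hlogbd R hR0 ?_, ?_⟩
      · have h1 : |(R : ℝ)| ≤ ((2 * G).factorial : ℝ) * ((G : ℝ) * B) ^ (2 * G) * B := by
          have h2 : ((|R| : ℤ) : ℝ)
              ≤ ((((2 * G).factorial * (G * B) ^ (2 * G) * B : ℤ)) : ℝ) := by exact_mod_cast hRle
          push_cast at h2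
          exact h2
        refine h1.trans ?_
        push_cast
        have h3 : ((G : ℝ) * B) ^ (2 * G) * B ≤ (G : ℝ) ^ (2 * G) * X ^ (2 * G + 1) := by
          rw [mul_pow, mul_assoc, ← pow_succ]
          apply mul_le_mul_of_nonneg_left _ (by positivity)
          exact pow_le_pow_left₀ (by positivity) hBX _
        calc ((2 * G).factorial : ℝ) * ((G : ℝ) * B) ^ (2 * G) * B
            = ((2 * G).factorial : ℝ) * (((G : ℝ) * B) ^ (2 * G) * B) := by ring
          _ ≤ ((2 * G).factorial : ℝ) * ((G : ℝ) ^ (2 * G) * X ^ (2 * G + 1)) :=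
              mul_le_mul_of_nonneg_left h3 (by positivity)
          _ = _ := by ring
      · intro p hp hpR
        exact ⟨fun _ => hR p hp hpR, fun h => absurd hij h⟩
    · obtain ⟨R, hR0, hRle, hR⟩ := cert (f i) (f j) (hf i).1 (hf i).2.1 (hf j).2.1 (hcB i) (hcB j)
        hB1 (hcop i j hij)
      refine ⟨R, hR0, hlogbd R hR0 ?_, ?_⟩
      · have h1 : |(R : ℝ)| ≤ ((2 * G).factorial : ℝ) * (B : ℝ) ^ (2 * G) := by
          have h2 : ((|R| : ℤ) : ℝ)
              ≤ ((((2 * G).factorial * B ^ (2 * G) : ℤ)) : ℝ) := by exact_mod_cast hRle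
          push_cast at h2
          exact h2
        refine h1.trans ?_
        push_cast
        have hG1 : (1 : ℝ) ≤ (G : ℝ) ^ (2 * G) := one_le_pow₀ (by exact_mod_cast hG)
        have h3 : (B : ℝ) ^ (2 * G) ≤ (G : ℝ) ^ (2 * G) * X ^ (2 * G + 1) := by
          calc (B : ℝ) ^ (2 * G) ≤ X ^ (2 * G) := pow_le_pow_left₀ (by positivity) hBX _
            _ ≤ X ^ (2 * G + 1) := pow_le_pow_right₀ hX (by omega)
            _ = 1 * X ^ (2 * G + 1) := (one_mul _).symm
            _ ≤ (G : ℝ) ^ (2 * G) * X ^ (2 * G + 1) :=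
                mul_le_mul_of_nonneg_right hG1 (by positivity)
        calc ((2 * G).factorial : ℝ) * (B : ℝ) ^ (2 * G)
            ≤ ((2 * G).factorial : ℝ) * ((G : ℝ) ^ (2 * G) * X ^ (2 * G + 1)) :=
              mul_le_mul_of_nonneg_left h3 (by positivity)
          _ = _ := by ring
      · intro p hp hpR
        exact ⟨fun h => absurd h hij, fun _ => hR p hp hpR⟩
  choose R hR0 hRlog hR using key
  refine ⟨R, hR0, hRlog, ?_⟩
  intro p hp hpR
  refine ⟨fun i => ((hR (i, i) p hp (hpR _)).1 rfl).1, fun i => ((hR (i, i) p hp (hpR _)).1 rfl).2,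
    fun i j hij => (hR (i, j) p hp (hpR _)).2 hij⟩

/-- the weight of a union -/
lemma sum_biUnion_le {ι : Type*} [DecidableEq ι] (S : Finset ι) (T : ι → Finset ℕ) :
    ∑ p ∈ S.biUnion T, Real.log (p : ℝ) ≤ ∑ i ∈ S, ∑ p ∈ T i, Real.log (p : ℝ) := by
  classical
  induction S using Finset.induction_on with
  | empty => simp
  | insert a S ha ih =>
    rw [Finset.biUnion_insert, Finset.sum_insert ha]
    have h3 := Finset.sum_union_inter (s₁ := T a) (s₂ := S.biUnion T)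
      (f := fun p : ℕ => Real.log (p : ℝ))
    have h4 : 0 ≤ ∑ p ∈ T a ∩ S.biUnion T, Real.log (p : ℝ) :=
      Finset.sum_nonneg (fun p _ => Real.log_natCast_nonneg p)
    linarith

lemma sum_union_le (A B : Finset ℕ) :
    ∑ p ∈ A ∪ B, Real.log (p : ℝ) ≤ ∑ p ∈ A, Real.log (p : ℝ) + ∑ p ∈ B, Real.log (p : ℝ) := by
  rw [← Finset.sum_union_inter]
  have : 0 ≤ ∑ p ∈ A ∩ B, Real.log (p : ℝ) :=
    Finset.sum_nonneg (fun p _ => Real.log_natCast_nonneg p)
  linarith

/-- the weight of the primes at which an entry does not have symbol `-1` -/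
lemma entry_weight {G : ℕ} {η c X y Λ : ℝ} (hX : 1 < X) (hΛ : 0 ≤ Λ) (hc : 0 ≤ c)
    (hXG : Real.log ((G : ℝ) + 1) ≤ Real.log X) (f : ℤ[X]) (hf : Col G X f) (x s t : ℚ)
    (hn : |(x.num : ℝ)| ≤ X) (hd : (x.den : ℝ) ≤ X)
    (hr : ExcField η c X (s * t * aeval x f))
    (hthr : ∀ d : ℤ, X ^ η ≤ |(d : ℝ)| → y ≤ threshold d)
    (P : Finset ℕ) (hP : ∀ p ∈ P, p.Prime ∧ p ≠ 2 ∧ (p : ℝ) < y ∧ Real.log p ≤ Λ) :
    ∑ p ∈ P.filter (fun p : ℕ => uchar p s * uchar p t * jacobiSym (val f x) p ≠ -1), Real.log p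
      ≤ c * Real.log X ^ 2 * Λ + (2 * G + 3) * Real.log X := by
  classical
  have hr0 := excField_ne_zero (by linarith) hr
  have hs0 : s ≠ 0 := by rintro rfl; apply hr0; ring
  have ht0 : t ≠ 0 := by rintro rfl; apply hr0; ring
  have hfx : aeval x f ≠ 0 := by intro h; apply hr0; rw [h]; ring
  have hdq : (x.den : ℚ) ≠ 0 := by exact_mod_cast x.den_ne_zero
  have hval : val f x ≠ 0 := by
    intro h
    have h1 := val_eq f x
    rw [h] at h1
    have h2 : aeval x f * ((x.den : ℚ) ^ f.natDegree) ^ 2 ≠ 0 :=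
      mul_ne_zero hfx (pow_ne_zero _ (pow_ne_zero _ hdq))
    exact h2 (by rw [← h1]; norm_num)
  have hsub : P.filter (fun p : ℕ => uchar p s * uchar p t * jacobiSym (val f x) p ≠ -1)
      ⊆ P.filter (fun p : ℕ => (p : ℤ) ∣ val f x)
        ∪ P.filter (fun p : ℕ => uchar p (s * t * aeval x f) ≠ -1) := by
    intro p hp
    rw [Finset.mem_filter] at hp
    obtain ⟨hpP, hne⟩ := hp
    have : Fact p.Prime := ⟨(hP p hpP).1⟩
    by_cases hpv : (p : ℤ) ∣ val f x
    · exact Finset.mem_union_left _ (Finset.mem_filter.2 ⟨hpP, hpv⟩)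
    · apply Finset.mem_union_right
      rw [Finset.mem_filter]
      refine ⟨hpP, ?_⟩
      have h1 : uchar p (s * t * aeval x f) = uchar p s * uchar p t * jacobiSym (val f x) p := by
        rw [← uchar_int hpv, val_eq, uchar_mul hfx (pow_ne_zero _ (pow_ne_zero _ hdq)),
          uchar_sq (pow_ne_zero _ hdq), mul_one, uchar_mul (mul_ne_zero hs0 ht0) hfx,
          uchar_mul hs0 ht0]
      rw [h1]
      exact hne
  have h1 : ∑ p ∈ P.filter (fun p : ℕ => (p : ℤ) ∣ val f x), Real.log p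
      ≤ (2 * G + 2) * Real.log X := by
    refine (sum_log_dvd_le P (fun p hp => (hP p hp).1) _ hval).trans ?_
    have h2 := abs_val_le f x hX.le hf.2.1 hf.2.2.1 hn hd
    have h3 : (0 : ℝ) < |(val f x : ℝ)| := abs_pos.2 (by exact_mod_cast hval)
    have h4 := Real.log_le_log h3 h2
    rw [Real.log_mul (by positivity) (by positivity), Real.log_pow] at h4
    push_cast at h4
    linarith
  have h2 := excField_weight hX hΛ hc hr hthr P hP
  calc ∑ p ∈ P.filter (fun p : ℕ => uchar p s * uchar p t * jacobiSym (val f x) p ≠ -1), Real.log p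
      ≤ _ := Finset.sum_le_sum_of_subset_of_nonneg hsub
        (fun p _ _ => Real.log_natCast_nonneg p)
    _ ≤ _ := sum_union_le _ _
    _ ≤ _ := by linarith

end PolyC
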