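import Pool.Agent.W_aaa0df_pc.PolE

set_option autoImplicit false

namespace PolyC

open Polynomial Finset StepH53 MPaaa0df Filter

/-- the parameter inequality for the moment -/
lemma q_bound {C c1 L l : ℝ} {k m : ℕ} (hC : C = 8 * Real.exp 1 * c1 * Real.exp (1 / c1))
    (hc1p : 0 < c1) (hL : 1 ≤ L) (hl : l = Real.log L) (hCl : 1 ≤ C * l) (hm1 : C * l ≤ m)
    (hk1 : c1 * l ≤ k) (hk2 : (k : ℝ) ≤ 2 * (c1 * l)) :
    (4 * Real.exp 1 * (k : ℝ) / m) ^ (2 * k) ≤ 1 / L ^ 2 := by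
  have h1 : 4 * Real.exp 1 * (k : ℝ) / m ≤ Real.exp (-(1 / c1)) := by
    have hmpos : (0 : ℝ) < m := by linarith
    rw [div_le_iff₀ hmpos]
    have h2 : Real.exp (-(1 / c1)) * (C * l) ≤ Real.exp (-(1 / c1)) * m :=
      mul_le_mul_of_nonneg_left hm1 (Real.exp_pos _).le
    have h3 : Real.exp (-(1 / c1)) * (C * l) = 8 * Real.exp 1 * (c1 * l) := by
      rw [hC]
      have : Real.exp (-(1 / c1)) * Real.exp (1 / c1) = 1 := by
        rw [← Real.exp_add]; simp
      calc Real.exp (-(1 / c1)) * (8 * Real.exp 1 * c1 * Real.exp (1 / c1) * l)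
          = (Real.exp (-(1 / c1)) * Real.exp (1 / c1)) * (8 * Real.exp 1 * (c1 * l)) := by ring
        _ = _ := by rw [this, one_mul]
    have h4 : 4 * Real.exp 1 * (k : ℝ) ≤ 8 * Real.exp 1 * (c1 * l) := by
      have := mul_le_mul_of_nonneg_left hk2 (by positivity : 0 ≤ 4 * Real.exp 1)
      linarith
    linarith
  calc (4 * Real.exp 1 * (k : ℝ) / m) ^ (2 * k) ≤ Real.exp (-(1 / c1)) ^ (2 * k) :=
        pow_le_pow_left₀ (by positivity) h1 _
    _ = Real.exp (-(2 * k / c1)) := by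
        rw [← Real.exp_nat_mul]
        congr 1
        push_cast
        ring
    _ ≤ Real.exp (-(2 * l)) := by
        apply Real.exp_le_exp.2
        have : l ≤ k / c1 := by rw [le_div_iff₀ hc1p]; linarith
        have h5 : 2 * (k : ℝ) / c1 = 2 * (k / c1) := by ring
        rw [h5]; linarith
    _ = 1 / L ^ 2 := by
        have hL0 : 0 < L := by linarith
        rw [Real.exp_neg, show (2 : ℝ) * l = l * 2 by ring, Real.exp_mul, hl, Real.exp_log hL0,
          one_div]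
        norm_cast

/-- the pointwise bound for the second factor -/
lemma point_bound {η L l y q gk pr : ℝ} (hη : 0 < η) (hη1 : η ≤ 1) (hL : 1 ≤ L) (hl : 1 ≤ l)
    (hy : y = η ^ 2 / 2 * (L * l) ^ 2) (hLl2 : 4 / η * l ^ 2 ≤ L) (hq : q ≤ 1 / L ^ 2)
    (hgk : 1 ≤ gk) (hpr0 : 0 ≤ pr) (hpy : pr ≤ y) :
    2 * q * pr + 96 * gk * Real.sqrt pr + 1 ≤ 97 * gk * Real.sqrt y := by
  have hL0 : 0 < L := by linarith
  have h2 : Real.sqrt pr ≤ Real.sqrt y := Real.sqrt_le_sqrt hpy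
  have h3 : 2 * q * pr ≤ 2 * (1 / L ^ 2) * y := by
    have h31 : 2 * q * pr ≤ 2 * (1 / L ^ 2) * pr := by
      apply mul_le_mul_of_nonneg_right _ hpr0
      linarith
    have h32 : 2 * (1 / L ^ 2) * pr ≤ 2 * (1 / L ^ 2) * y :=
      mul_le_mul_of_nonneg_left hpy (by positivity)
    linarith
  have h4 : 2 * (1 / L ^ 2) * y = η ^ 2 * l ^ 2 := by
    rw [hy]; field_simp
  have h5 : η ^ 2 * l ^ 2 + 1 ≤ Real.sqrt y := by
    apply Real.le_sqrt_of_sq_le
    have g1 : 4 * l ^ 2 ≤ η * L := by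
      have := mul_le_mul_of_nonneg_left hLl2 hη.le
      have e1 : η * (4 / η * l ^ 2) = 4 * l ^ 2 := by field_simp
      rw [e1] at this
      exact this
    have g2 : η ^ 2 * l ^ 2 + 1 ≤ 2 * l ^ 2 := by
      have : (1 : ℝ) ≤ l ^ 2 := one_le_pow₀ hl
      have h6 : η ^ 2 ≤ 1 := pow_le_one₀ hη.le hη1
      nlinarith
    have g3 : (η ^ 2 * l ^ 2 + 1) ^ 2 ≤ (2 * l ^ 2) ^ 2 :=
      pow_le_pow_left₀ (by positivity) g2 2
    have g4 : (4 * l ^ 2) ^ 2 ≤ (η * L) ^ 2 := pow_le_pow_left₀ (by positivity) g1 2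
    have g5 : (η * L) ^ 2 ≤ (η * L) ^ 2 * l ^ 2 := by
      have : (1 : ℝ) ≤ l ^ 2 := one_le_pow₀ hl
      nlinarith [sq_nonneg (η * L)]
    have g6 : y = (η * L) ^ 2 * l ^ 2 / 2 := by rw [hy]; ring
    rw [g6]
    nlinarith
  have hs0 := Real.sqrt_nonneg y
  have h6 : Real.sqrt y ≤ gk * Real.sqrt y := by
    have := mul_le_mul_of_nonneg_right hgk hs0
    linarith
  have h7 : 96 * gk * Real.sqrt pr ≤ 96 * gk * Real.sqrt y :=
    mul_le_mul_of_nonneg_left h2 (by linarith)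
  linarith

/-- the numerical comparison of weights -/
lemma num_bound {η C c L l y g mm θF θP W : ℝ} (hη : 0 < η) (hL : 1 ≤ L) (hl : 1 ≤ l)
    (hg : 0 ≤ g) (hC : 0 < C) (hc : c = η ^ 2 / (400 * C)) (hmm0 : 0 ≤ mm)
    (hmm : mm ≤ 2 * (C * l)) (hy : y = η ^ 2 / 2 * (L * l) ^ 2) (hlog2 : Real.log 2 ≤ L)
    (hL2 : 32 * (8 * (g + 1) * C ^ 2 + 1) / η ^ 2 ≤ L)
    (hL3 : 200 * (C * (2 * g + 3)) / η ^ 2 ≤ L)
    (hθ : y / 2 ≤ θF) (hP : θF - (Real.log 2 + mm ^ 2 * ((2 * g + 2) * L)) ≤ θP)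
    (hW : W = mm * (c * L ^ 2 * (3 * l) + (2 * g + 3) * L)) : y / 4 ≤ θP - W := by
  have hcp : 0 < c := by rw [hc]; positivity
  have e1 : mm ^ 2 ≤ 4 * C ^ 2 * l ^ 2 := by
    have := pow_le_pow_left₀ hmm0 hmm 2
    calc mm ^ 2 ≤ (2 * (C * l)) ^ 2 := this
      _ = 4 * C ^ 2 * l ^ 2 := by ring
  have e2 : Real.log 2 + mm ^ 2 * ((2 * g + 2) * L) ≤ y / 16 := by
    have f1 : mm ^ 2 * ((2 * g + 2) * L) ≤ 8 * (g + 1) * C ^ 2 * (l ^ 2 * L) := by
      calc mm ^ 2 * ((2 * g + 2) * L) ≤ (4 * C ^ 2 * l ^ 2) * ((2 * g + 2) * L) :=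
            mul_le_mul_of_nonneg_right e1 (by positivity)
        _ = _ := by ring
    have f2 : Real.log 2 ≤ 1 * (l ^ 2 * L) := by
      have : (1 : ℝ) ≤ l ^ 2 := one_le_pow₀ hl
      have h5 : L ≤ l ^ 2 * L := by nlinarith
      linarith
    have f3 : 32 * (8 * (g + 1) * C ^ 2 + 1) ≤ η ^ 2 * L := by
      rw [div_le_iff₀ (by positivity)] at hL2
      linarith
    have f4 : y / 16 = η ^ 2 * L * (l ^ 2 * L) / 32 := by rw [hy]; ring
    rw [f4]
    have f5 : 0 ≤ l ^ 2 * L := by positivity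
    have f6 := mul_le_mul_of_nonneg_right f3 f5
    linarith
  have e3 : W ≤ y / 16 := by
    have f1 : W ≤ 2 * (C * l) * (c * L ^ 2 * (3 * l) + (2 * g + 3) * L) := by
      rw [hW]
      exact mul_le_mul_of_nonneg_right hmm (by positivity)
    have f2 : 2 * (C * l) * (c * L ^ 2 * (3 * l) + (2 * g + 3) * L)
        = 6 * (C * c) * (L ^ 2 * l ^ 2) + 2 * (C * (2 * g + 3)) * (l * L) := by ring
    have f3 : C * c = η ^ 2 / 400 := by rw [hc]; field_simp
    have f4 : y / 16 = η ^ 2 / 32 * (L ^ 2 * l ^ 2) := by rw [hy]; ring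
    have f5 : 200 * (C * (2 * g + 3)) ≤ η ^ 2 * L := by
      rw [div_le_iff₀ (by positivity)] at hL3
      linarith
    have f6 : l * L ≤ l ^ 2 * L := by
      have : l ≤ l ^ 2 := by nlinarith
      exact mul_le_mul_of_nonneg_right this (by linarith)
    have f7 : 2 * (C * (2 * g + 3)) * (l * L) ≤ η ^ 2 / 100 * (L ^ 2 * l ^ 2) := by
      have g1 : 2 * (C * (2 * g + 3)) * (l * L) ≤ 2 * (C * (2 * g + 3)) * (l ^ 2 * L) := by
        apply mul_le_mul_of_nonneg_left f6; positivity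
      have g2 : 200 * (C * (2 * g + 3)) * (l ^ 2 * L) ≤ η ^ 2 * L * (l ^ 2 * L) :=
        mul_le_mul_of_nonneg_right f5 (by positivity)
      have g3 : η ^ 2 * L * (l ^ 2 * L) = η ^ 2 * (L ^ 2 * l ^ 2) := by ring
      rw [g3] at g2
      linarith
    rw [f2, f3] at f1
    rw [f4]
    have f8 : 0 ≤ η ^ 2 * (L ^ 2 * l ^ 2) := by positivity
    have f9 : 6 * (η ^ 2 / 400) * (L ^ 2 * l ^ 2) = 0.015 * (η ^ 2 * (L ^ 2 * l ^ 2)) := by ring
    have f10 : η ^ 2 / 32 * (L ^ 2 * l ^ 2) = 0.03125 * (η ^ 2 * (L ^ 2 * l ^ 2)) := by ring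
    have f11 : η ^ 2 / 100 * (L ^ 2 * l ^ 2) = 0.01 * (η ^ 2 * (L ^ 2 * l ^ 2)) := by ring
    rw [f9] at f1
    rw [f11] at f7
    rw [f10]
    linarith
  have hy0 : 0 ≤ y := by rw [hy]; positivity
  linarith

/-- the threshold is at least `y` for all discriminants considered -/
lemma thr_bound {η X L l y : ℝ} (hη : 0 < η) (hX0 : 0 < X) (hLX : L = Real.log X)
    (hlL : l = Real.log L) (hL : 1 ≤ L) (hl : 1 ≤ l) (hy : y = η ^ 2 / 2 * (L * l) ^ 2)
    (hlη : -4 * Real.log η ≤ l) (d : ℤ) (hd : X ^ η ≤ |(d : ℝ)|) : y ≤ threshold d := by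
  unfold threshold
  have h1 : η * L ≤ Real.log |(d : ℝ)| := by
    have h2 : (0 : ℝ) < X ^ η := Real.rpow_pos_of_pos hX0 _
    have h3 := Real.log_le_log h2 hd
    rwa [Real.log_rpow hX0, ← hLX] at h3
  have hηL0 : 0 < η * L := by positivity
  have h2 : 3 / 4 * l ≤ Real.log (Real.log |(d : ℝ)|) := by
    have h3 := Real.log_le_log hηL0 h1
    rw [Real.log_mul hη.ne' (by positivity), ← hlL] at h3
    linarith
  have h3 : (η * L) ^ 2 ≤ Real.log |(d : ℝ)| ^ 2 := pow_le_pow_left₀ hηL0.le h1 2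
  have h4 : (3 / 4 * l) ^ 2 ≤ Real.log (Real.log |(d : ℝ)|) ^ 2 :=
    pow_le_pow_left₀ (by positivity) h2 2
  calc y = (η * L) ^ 2 * (l ^ 2 / 2) := by rw [hy]; ring
    _ ≤ (η * L) ^ 2 * (3 / 4 * l) ^ 2 := by
        apply mul_le_mul_of_nonneg_left _ (sq_nonneg _)
        nlinarith [sq_nonneg l]
    _ ≤ _ := mul_le_mul h3 h4 (sq_nonneg _) (sq_nonneg _)

/-- elementary facts on `y` -/
lemma y_facts {η L l y : ℝ} (hη : 0 < η) (hη1 : η ≤ 1) (hL : 1 ≤ L) (hl : 1 ≤ l)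
    (hy : y = η ^ 2 / 2 * (L * l) ^ 2) (hlL : l ^ 2 ≤ L) (hll : l = Real.log L)
    (hηL : 1 ≤ η / 4 * L) : 0 < y ∧ Real.log y ≤ 3 * l ∧ 1 ≤ y := by
  have hy0 : 0 < y := by rw [hy]; positivity
  refine ⟨hy0, ?_, ?_⟩
  · have h1 : y ≤ L ^ 3 := by
      rw [hy]
      have h2 : (L * l) ^ 2 ≤ L ^ 3 := by
        have : L ^ 2 * l ^ 2 ≤ L ^ 2 * L := mul_le_mul_of_nonneg_left hlL (by positivity)
        nlinarith
      have h3 : η ^ 2 / 2 ≤ 1 := by nlinarith
      calc η ^ 2 / 2 * (L * l) ^ 2 ≤ 1 * L ^ 3 := mul_le_mul h3 h2 (by positivity) (by norm_num)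
        _ = L ^ 3 := one_mul _
    have h2 := Real.log_le_log hy0 h1
    rw [Real.log_pow, ← hll] at h2
    push_cast at h2
    exact h2
  · rw [hy]
    have h1 : 4 ≤ η * L := by linarith
    have h2 : 4 ≤ η * (L * l) := by nlinarith
    have h3 : (4 : ℝ) ^ 2 ≤ (η * (L * l)) ^ 2 := pow_le_pow_left₀ (by norm_num) h2 2
    nlinarith

/-- core form: `m` polynomial columns, all entries exceptional -/
theorem core (G : ℕ) (hG : 1 ≤ G) (η : ℝ) (hη : 0 < η) (hη1 : η ≤ 1) :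
    ∃ C c X₀ : ℝ, 0 < C ∧ 0 < c ∧ 1 < X₀ ∧
    ∀ X : ℝ, X₀ ≤ X → ∀ m : ℕ, m = ⌈C * Real.log (Real.log X)⌉₊ →
      ∀ (f : Fin m → ℤ[X]) (t : Fin m → ℚ) (A : Finset ℚ) (s : ℚ → ℚ),
        (∀ i, Col G X (f i)) →
        (∀ i j, i ≠ j → IsCoprime ((f i).map (Int.castRingHom ℚ))
          ((f j).map (Int.castRingHom ℚ))) →
        (∀ a ∈ A, |(a.num : ℝ)| ≤ X ∧ (a.den : ℝ) ≤ X) →
        (∀ a ∈ A, ∀ j, ExcField η c X (s a * t j * aeval a (f j))) →
        (A.card : ℝ) ≤ Real.log X * Real.log (Real.log X) ^ 2 := by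
  have hGr : (1 : ℝ) ≤ G := by exact_mod_cast hG
  have hG0 : (0 : ℝ) < G := by linarith
  set c1' : ℝ := η / 40000 with hc1'
  set c1 : ℝ := c1' / G with hc1
  have hc1'p : 0 < c1' := by positivity
  have hc1p : 0 < c1 := by positivity
  set C : ℝ := 8 * Real.exp 1 * c1 * Real.exp (1 / c1) with hC
  have hCp : 0 < C := by positivity
  set c : ℝ := η ^ 2 / (400 * C) with hc
  have hcp : 0 < c := by positivity
  set Cst : ℝ := Real.log (((2 * G).factorial * G ^ (2 * G) : ℕ) : ℝ) with hCst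
  -- collect the asymptotic conditions
  have hev : ∀ᶠ X : ℝ in atTop, 1 < X ∧ 1 ≤ Real.log X ∧ 1 ≤ Real.log (Real.log X)
      ∧ 1 ≤ c1 * Real.log (Real.log X) ∧ 1 ≤ C * Real.log (Real.log X)
      ∧ -4 * Real.log η ≤ Real.log (Real.log X)
      ∧ Real.log (Real.log X) ^ 2 ≤ Real.log X
      ∧ 32 * (8 * (G + 1) * C ^ 2 + 1) / η ^ 2 ≤ Real.log X
      ∧ 200 * (C * (2 * G + 3)) / η ^ 2 ≤ Real.log X
      ∧ (η ^ 2 / 2 * (Real.log X * Real.log (Real.log X)) ^ 2) / 2 ≤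
          ∑ p ∈ Nat.primesBelow ⌈η ^ 2 / 2 * (Real.log X * Real.log (Real.log X)) ^ 2⌉₊, Real.log p
      ∧ (4 / η) * Real.log (Real.log X) ^ 2 ≤ Real.log X ∧ 1 ≤ η / 4 * Real.log X
      ∧ Real.log 2 ≤ Real.log X ∧ Cst ≤ Real.log X ∧ Real.log ((G : ℝ) + 1) ≤ Real.log X := by
    have hy : Tendsto (fun X : ℝ => η ^ 2 / 2 * (Real.log X * Real.log (Real.log X)) ^ 2) atTop atTop := by
      have h1 : Tendsto (fun X : ℝ => Real.log X * Real.log (Real.log X)) atTop atTop :=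
        Real.tendsto_log_atTop.atTop_mul_atTop₀ (Real.tendsto_log_atTop.comp Real.tendsto_log_atTop)
      exact ((tendsto_pow_atTop (two_ne_zero)).comp h1).const_mul_atTop (by positivity)
    have h2 := hy.eventually theta_lower
    filter_upwards [eventually_gt_atTop (1 : ℝ), ev_log 1, ev_loglog 1, ev_loglog (1 / c1),
      ev_loglog (1 / C), ev_loglog (-4 * Real.log η), ev_pow 1 2,
      ev_log (32 * (8 * (G + 1) * C ^ 2 + 1) / η ^ 2), ev_log (200 * (C * (2 * G + 3)) / η ^ 2),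
      h2, ev_pow (4 / η) 2,
      ev_log (4 / η), ev_log (Real.log 2), ev_log Cst, ev_log (Real.log ((G : ℝ) + 1))]
      with X h1 h2 h3 h4 h5 h6 h7 h8 h9 h10 h11 h12 h13 h14 h15
    refine ⟨h1, h2, h3, ?_, ?_, h6, by linarith, h8, h9, h10, h11, ?_, h13, h14, h15⟩
    · rw [div_le_iff₀ hc1p] at h4; linarith
    · rw [div_le_iff₀ hCp] at h5; linarith
    · rw [div_le_iff₀ hη] at h12; linarith
  obtain ⟨X₀, hX₀⟩ := Filter.eventually_atTop.1 hev
  refine ⟨C, c, max X₀ 2, hCp, hcp, by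
    exact lt_of_lt_of_le (by norm_num) (le_max_right X₀ 2), ?_⟩
  intro X hX m hm f t A s hf hcop hA hexc
  obtain ⟨hX1, hL1, hl1, hcl, hCl, hlη, hlL, hL2, hL3, hθlow, hLl2, hηL, hlog2, hLC, hLG⟩ :=
    hX₀ X ((le_max_left _ _).trans hX)
  set L := Real.log X with hLdef
  set l := Real.log L with hldef
  set y : ℝ := η ^ 2 / 2 * (L * l) ^ 2 with hy
  -- small sets are trivial
  by_cases hcard : A.card = 0
  · rw [hcard]; push_cast; positivity
  have hX0 : 0 < X := by linarith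
  -- m and k
  have hm1 : C * l ≤ m := by rw [hm]; exact Nat.le_ceil _
  have hm2 : (m : ℝ) ≤ 2 * (C * l) := by
    have := Nat.ceil_lt_add_one (show 0 ≤ C * l by positivity)
    rw [← hm] at this
    linarith
  have hm3 : 1 ≤ m := by
    have : (1 : ℝ) ≤ m := by linarith
    exact_mod_cast this
  set k : ℕ := ⌈c1 * l⌉₊ with hk
  have hk1 : c1 * l ≤ k := Nat.le_ceil _
  have hk2 : (k : ℝ) ≤ 2 * (c1 * l) := by
    have := Nat.ceil_lt_add_one (show 0 ≤ c1 * l by positivity)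
    rw [← hk] at this
    linarith
  have hk3 : 1 ≤ k := by
    have : (1 : ℝ) ≤ k := by linarith
    exact_mod_cast this
  -- rows
  have hs0 : ∀ a ∈ A, s a ≠ 0 := by
    intro a ha
    have h1 := excField_ne_zero hX0 (hexc a ha ⟨0, hm3⟩)
    intro h
    apply h1
    rw [h]; ring
  have hwA : ∀ a ∈ A, ∀ a' ∈ A, a ≠ a' →
      |((wedge (pr a) (pr a') : ℤ) : ℝ)| ≤ 2 * X ^ 2 := by
    intro a ha a' ha' _
    obtain ⟨h1, h2⟩ := hA a ha
    obtain ⟨h3, h4⟩ := hA a' ha'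
    unfold wedge pr
    push_cast
    calc |(a.num : ℝ) * a'.den - a.den * a'.num|
        ≤ |(a.num : ℝ) * a'.den| + |(a.den : ℝ) * a'.num| := abs_sub _ _
      _ ≤ X * X + X * X := by
          rw [abs_mul, abs_mul, Nat.abs_cast, Nat.abs_cast]
          exact add_le_add (mul_le_mul h1 h4 (Nat.cast_nonneg _) hX0.le)
            (mul_le_mul h2 h3 (abs_nonneg _) hX0.le)
      _ = 2 * X ^ 2 := by ring
  have hlogM : Real.log (2 * X ^ 2) ≤ 3 * L := by
    rw [Real.log_mul (by norm_num) (by positivity), Real.log_pow]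
    push_cast
    linarith
  -- the bad primes
  obtain ⟨R₀, hR₀0, hR₀log, hR₀⟩ := bad_cert hG hX1.le f hf hcop hLC
  set F := Nat.primesBelow ⌈y⌉₊ with hF
  set Bad := F.filter (fun p : ℕ => p = 2 ∨ ∃ x, (p : ℤ) ∣ R₀ x) with hBad
  set P := F.filter (fun p : ℕ => ¬ (p = 2 ∨ ∃ x, (p : ℤ) ∣ R₀ x)) with hP
  have hFp : ∀ p ∈ F, p.Prime := fun p hp => Nat.prime_of_mem_primesBelow hp
  have hFy : ∀ p ∈ F, (p : ℝ) < y := fun p hp => Nat.lt_ceil.1 (Nat.mem_primesBelow.1 hp).1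
  have hlog0 : ∀ p : ℕ, 0 ≤ Real.log (p : ℝ) := fun p => Real.log_natCast_nonneg p
  have hLl0 : 0 < L * l := by positivity
  obtain ⟨hy0, hylog, hy1⟩ := y_facts hη hη1 hL1 hl1 hy hlL rfl hηL
  have hFlog : ∀ p ∈ F, Real.log p ≤ 3 * l := by
    intro p hp
    have h1 : (0 : ℝ) < p := by exact_mod_cast (hFp p hp).pos
    exact (Real.log_le_log h1 (hFy p hp).le).trans hylog
  have hθup : ∑ p ∈ P, Real.log (p : ℝ) ≤ 1.4 * y :=
    (Finset.sum_le_sum_of_subset_of_nonneg (Finset.filter_subset _ _)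
      (fun p _ _ => hlog0 p)).trans (theta_upper hy1)
  -- the weight of the bad primes
  have hbadw : ∑ p ∈ Bad, Real.log (p : ℝ) ≤ Real.log 2 + (m : ℝ) ^ 2 * ((2 * G + 2) * L) := by
    have h1 : Bad ⊆ {2} ∪ (univ : Finset (Fin m × Fin m)).biUnion
        (fun x => F.filter (fun p : ℕ => (p : ℤ) ∣ R₀ x)) := by
      intro p hp
      rw [hBad, Finset.mem_filter] at hp
      rcases hp.2 with h | ⟨x, hd⟩
      · apply Finset.mem_union_left; rw [h]; exact Finset.mem_singleton_self _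
      · apply Finset.mem_union_right
        exact Finset.mem_biUnion.2 ⟨x, Finset.mem_univ _, Finset.mem_filter.2 ⟨hp.1, hd⟩⟩
    have h3 : ∑ x : Fin m × Fin m,
          ∑ p ∈ F.filter (fun p : ℕ => (p : ℤ) ∣ R₀ x), Real.log (p : ℝ)
          ≤ (m : ℝ) ^ 2 * ((2 * G + 2) * L) := by
      calc ∑ x : Fin m × Fin m,
          ∑ p ∈ F.filter (fun p : ℕ => (p : ℤ) ∣ R₀ x), Real.log (p : ℝ)
          ≤ ∑ _x : Fin m × Fin m, ((2 * G + 2) * L) := by
            apply Finset.sum_le_sum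
            intro x _
            exact (sum_log_dvd_le F hFp _ (hR₀0 x)).trans (hR₀log x)
        _ = (m : ℝ) ^ 2 * ((2 * G + 2) * L) := by
            rw [Finset.sum_const, nsmul_eq_mul, Finset.card_univ, Fintype.card_prod,
              Fintype.card_fin]
            push_cast
            ring
    calc ∑ p ∈ Bad, Real.log (p : ℝ) ≤ _ :=
          Finset.sum_le_sum_of_subset_of_nonneg h1 (fun p _ _ => hlog0 p)
      _ ≤ _ := sum_union_le _ _
      _ ≤ Real.log 2 + (m : ℝ) ^ 2 * ((2 * G + 2) * L) := by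
          rw [Finset.sum_singleton]
          have := sum_biUnion_le (univ : Finset (Fin m × Fin m))
            (fun x => F.filter (fun p : ℕ => (p : ℤ) ∣ R₀ x))
          push_cast
          linarith
  have hθlow' : y / 2 ≤ ∑ p ∈ F, Real.log (p : ℝ) := hθlow
  have hPlow : ∑ p ∈ F, Real.log (p : ℝ) - (Real.log 2 + (m : ℝ) ^ 2 * ((2 * G + 2) * L))
      ≤ ∑ p ∈ P, Real.log (p : ℝ) := by
    have h1 := Finset.sum_filter_add_sum_filter_not F
      (fun p : ℕ => p = 2 ∨ ∃ x, (p : ℤ) ∣ R₀ x) (fun p : ℕ => Real.log (p : ℝ))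
    rw [← hBad, ← hP] at h1
    linarith
  -- threshold
  have hthr : ∀ d : ℤ, X ^ η ≤ |(d : ℝ)| → y ≤ threshold d :=
    fun d hd => thr_bound hη hX0 rfl rfl hL1 hl1 hy hlη d hd
  set W : ℝ := m * (c * L ^ 2 * (3 * l) + (2 * G + 3) * L) with hW
  have hWbound : ∀ a ∈ A, ∑ p ∈ P.filter
      (fun p : ℕ => ∃ j, uchar p (s a) * uchar p (t j) * jacobiSym (val (f j) a) p ≠ -1),
        Real.log (p : ℝ) ≤ W := by
    intro a ha
    have hPprop : ∀ p ∈ P, p.Prime ∧ p ≠ 2 ∧ (p : ℝ) < y ∧ Real.log p ≤ 3 * l := by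
      intro p hp
      rw [hP, Finset.mem_filter] at hp
      push Not at hp
      exact ⟨hFp p hp.1, hp.2.1, hFy p hp.1, hFlog p hp.1⟩
    have h1 : P.filter
        (fun p : ℕ => ∃ j, uchar p (s a) * uchar p (t j) * jacobiSym (val (f j) a) p ≠ -1)
        = (univ : Finset (Fin m)).biUnion (fun j => P.filter
          (fun p : ℕ => uchar p (s a) * uchar p (t j) * jacobiSym (val (f j) a) p ≠ -1)) := by
      ext p
      simp only [Finset.mem_filter, Finset.mem_biUnion, Finset.mem_univ, true_and]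
      tauto
    rw [h1]
    refine (sum_biUnion_le _ _).trans ?_
    calc ∑ j, ∑ p ∈ P.filter
          (fun p : ℕ => uchar p (s a) * uchar p (t j) * jacobiSym (val (f j) a) p ≠ -1),
          Real.log (p : ℝ) ≤ ∑ _j : Fin m, (c * L ^ 2 * (3 * l) + (2 * G + 3) * L) := by
          apply Finset.sum_le_sum
          intro j _
          exact entry_weight hX1 (by positivity) hcp.le hLG (f j) (hf j) a (s a) (t j)
            (hA a ha).1 (hA a ha).2 (hexc a ha j) hthr P hPprop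
      _ = W := by rw [Finset.sum_const, Finset.card_univ, Fintype.card_fin, nsmul_eq_mul]
  -- numerical comparison
  have hWy : y / 4 ≤ ∑ p ∈ P, Real.log (p : ℝ) - W :=
    num_bound hη hL1 hl1 hG0.le hCp hc (Nat.cast_nonneg m) hm2 hy hlog2 hL2 hL3 hθlow' hPlow rfl
  have hWθ : W ≤ ∑ p ∈ P, Real.log (p : ℝ) := by linarith
  have hX2 : (1 : ℝ) ≤ 2 * X ^ 2 := by nlinarith
  have hsieve := sieve_main hk3 hm3 hG P f (fun i => (hf i).2.1) (by
      intro p hp
      rw [hP, Finset.mem_filter] at hp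
      push Not at hp
      exact ⟨hFp p hp.1, hp.2.1, hR₀ p (hFp p hp.1) hp.2.2⟩) t s A hs0 (2 * X ^ 2) hX2 hwA W
      hWbound hWθ
  -- the second factor
  set R : ℝ := ∑ p ∈ P, Real.log (p : ℝ)
          * (2 * (4 * Real.exp 1 * k / m) ^ (2 * k) * p + 96 * (G * k) * Real.sqrt p + 1) with hR
  have hR0 : 0 ≤ R := Finset.sum_nonneg (fun p _ => mul_nonneg (hlog0 p) (by positivity))
  have hq : (4 * Real.exp 1 * (k : ℝ) / m) ^ (2 * k) ≤ 1 / L ^ 2 :=
    q_bound hC hc1p hL1 rfl hCl hm1 hk1 hk2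
  have hk0 : (1 : ℝ) ≤ k := by exact_mod_cast hk3
  have hGk : (1 : ℝ) ≤ (G : ℝ) * k := by nlinarith
  have hR1 : R ≤ 1.4 * y * (97 * (G * k) * Real.sqrt y) := by
    have h1 : ∀ p ∈ P,
        2 * (4 * Real.exp 1 * (k : ℝ) / m) ^ (2 * k) * p + 96 * (G * k) * Real.sqrt p + 1
        ≤ 97 * (G * k) * Real.sqrt y := by
      intro p hp
      rw [hP, Finset.mem_filter] at hp
      exact point_bound hη hη1 hL1 hl1 hy hLl2 hq hGk (Nat.cast_nonneg _) (hFy p hp.1).le
    calc R ≤ ∑ p ∈ P, Real.log (p : ℝ) * (97 * (G * k) * Real.sqrt y) := by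
          apply Finset.sum_le_sum
          intro p hp
          exact mul_le_mul_of_nonneg_left (h1 p hp) (hlog0 p)
      _ = (∑ p ∈ P, Real.log (p : ℝ)) * (97 * (G * k) * Real.sqrt y) := by rw [Finset.sum_mul]
      _ ≤ 1.4 * y * (97 * (G * k) * Real.sqrt y) := mul_le_mul_of_nonneg_right hθup (by positivity)
  have hncard : (1 : ℝ) ≤ A.card := by
    have : 1 ≤ A.card := by omega
    exact_mod_cast this
  have hGk2 : (G : ℝ) * k ≤ 2 * (c1' * l) := by
    have h1 : (G : ℝ) * k ≤ G * (2 * (c1 * l)) := mul_le_mul_of_nonneg_left hk2 hG0.le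
    have h2 : (G : ℝ) * (2 * (c1 * l)) = 2 * (c1' * l) := by
      rw [hc1]; field_simp
    linarith
  exact final_ineq hncard hη hη1 hL1 hl1 hy hc1' hGk2 hGk hθup hWy hlogM
    (Real.log_nonneg hX2) hR1 hR0 hsieve

/-- counting form -/
theorem poly_columns (G : ℕ) (hG : 1 ≤ G) (η : ℝ) (hη : 0 < η) (hη1 : η ≤ 1) :
    ∃ C c X₀ : ℝ, 0 < C ∧ 0 < c ∧
    ∀ X : ℝ, X₀ ≤ X → ∀ m : ℕ, m = ⌈C * Real.log (Real.log X)⌉₊ →
      ∀ (n H M : ℕ) (x : Fin n → ℚ) (f : Fin H → ℤ[X]) (s : Fin n → ℚ) (t : Fin H → ℚ),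
        Function.Injective x → (∀ i, |((x i).num : ℝ)| ≤ X ∧ ((x i).den : ℝ) ≤ X) →
        (∀ j, Col G X (f j)) →
        (∀ j j', j ≠ j' → IsCoprime ((f j).map (Int.castRingHom ℚ))
          ((f j').map (Int.castRingHom ℚ))) →
        (∀ i, M ≤ {j : Fin H | ExcField η c X (s i * t j * aeval (x i) (f j))}.ncard) →
        (n : ℝ) * (M.choose m : ℝ)
          ≤ (H.choose m : ℝ) * (Real.log X * Real.log (Real.log X) ^ 2) := by
  classical
  obtain ⟨C, c, X₀, hC, hc, hX₀, hcore⟩ := core G hG η hη hη1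
  refine ⟨C, c, X₀, hC, hc, ?_⟩
  intro X hX m hm n H M x f s t hx hxX hf hcop hE
  set Bd : ℝ := Real.log X * Real.log (Real.log X) ^ 2 with hBd
  set R : Finset (Fin H) → Finset (Fin n) := fun S =>
    univ.filter (fun i => ∀ j ∈ S, ExcField η c X (s i * t j * aeval (x i) (f j))) with hR
  have h1 : ∀ S ∈ (univ : Finset (Fin H)).powersetCard m, ((R S).card : ℝ) ≤ Bd := by
    intro S hS
    rw [Finset.mem_powersetCard] at hS
    obtain ⟨_, hcard⟩ := hS
    set e : Fin m ≃ S := (S.equivFinOfCardEq hcard).symm with he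
    have h2 := hcore X hX m hm (fun j => f (e j)) (fun j => t (e j)) ((R S).image x)
      (Function.extend x s (fun _ => 0)) (fun j => hf _) ?_ ?_ ?_
    · rw [Finset.card_image_of_injective _ hx] at h2
      exact h2
    · intro i j hij
      apply hcop
      intro h
      exact hij (e.injective (Subtype.ext h))
    · intro a ha
      obtain ⟨i, _, rfl⟩ := Finset.mem_image.1 ha
      exact hxX i
    · intro a ha j
      obtain ⟨i, hi, rfl⟩ := Finset.mem_image.1 ha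
      rw [hx.extend_apply]
      exact (Finset.mem_filter.1 hi).2 (e j) (e j).2
  set ex : Fin n → Finset (Fin H) := fun i =>
    univ.filter (fun j => ExcField η c X (s i * t j * aeval (x i) (f j))) with hex
  have hexc : ∀ i, M ≤ (ex i).card := by
    intro i
    have h2 := hE i
    rw [Set.ncard_eq_toFinset_card'] at h2
    have h3 : {j : Fin H | ExcField η c X (s i * t j * aeval (x i) (f j))}.toFinset = ex i := by
      ext j; simp [hex]
    rw [h3] at h2
    exact h2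
  have h3 : (n : ℝ) * (M.choose m : ℝ) ≤ ∑ i : Fin n,
      ((((univ : Finset (Fin H)).powersetCard m).filter (fun S => S ⊆ ex i)).card : ℝ) := by
    have h4 : (n : ℝ) * (M.choose m : ℝ) = ∑ _i : Fin n, (M.choose m : ℝ) := by
      rw [Finset.sum_const, Finset.card_univ, Fintype.card_fin, nsmul_eq_mul]
    rw [h4]
    apply Finset.sum_le_sum
    intro i _
    have h5 : (ex i).powersetCard m ⊆ ((univ : Finset (Fin H)).powersetCard m).filter
        (fun S => S ⊆ ex i) := by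
      intro S hS
      rw [Finset.mem_powersetCard] at hS
      rw [Finset.mem_filter, Finset.mem_powersetCard]
      exact ⟨⟨Finset.subset_univ _, hS.2⟩, hS.1⟩
    have h6 := Finset.card_le_card h5
    rw [Finset.card_powersetCard] at h6
    have h7 : M.choose m ≤ (ex i).card.choose m := Nat.choose_le_choose m (hexc i)
    exact_mod_cast h7.trans h6
  have h4 : ∑ i : Fin n, ((((univ : Finset (Fin H)).powersetCard m).filter
        (fun S => S ⊆ ex i)).card : ℝ)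
      = ∑ S ∈ (univ : Finset (Fin H)).powersetCard m, ((R S).card : ℝ) := by
    have h5 : ∀ i : Fin n, ((((univ : Finset (Fin H)).powersetCard m).filter
        (fun S => S ⊆ ex i)).card : ℝ)
        = ∑ S ∈ (univ : Finset (Fin H)).powersetCard m, if S ⊆ ex i then (1 : ℝ) else 0 := by
      intro i
      rw [← Finset.sum_filter, Finset.sum_const, nsmul_eq_mul, mul_one]
    have h6 : ∀ S : Finset (Fin H), ((R S).card : ℝ)
        = ∑ i : Fin n, if S ⊆ ex i then (1 : ℝ) else 0 := by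
      intro S
      rw [← Finset.sum_filter, Finset.sum_const, nsmul_eq_mul, mul_one]
      congr 2
      ext i
      simp only [hR, Finset.mem_filter, Finset.mem_univ, true_and, hex]
      constructor
      · intro h j hj
        exact Finset.mem_filter.2 ⟨Finset.mem_univ _, h j hj⟩
      · intro h j hj
        exact (Finset.mem_filter.1 (h hj)).2
    rw [Finset.sum_congr rfl (fun i _ => h5 i), Finset.sum_congr rfl (fun S _ => h6 S),
      Finset.sum_comm]
  calc (n : ℝ) * (M.choose m : ℝ) ≤ _ := h3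
    _ = _ := h4
    _ ≤ ∑ _S ∈ (univ : Finset (Fin H)).powersetCard m, Bd := Finset.sum_le_sum h1
    _ = (H.choose m : ℝ) * Bd := by
        rw [Finset.sum_const, Finset.card_powersetCard, Finset.card_univ, Fintype.card_fin,
          nsmul_eq_mul]

end PolyC
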